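import Mathlib

set_option autoImplicit false

namespace Pool.Agent.Lib.MP_b23923_nt

open Finset Matrix

theorem det_zero_col {R : Type*} [CommRing R] (k : ℕ) (A : Matrix (Fin (k + 1)) (Fin (k + 1)) R)
    (h : ∀ i : Fin k, A i.succ 0 = 0) :
    A.det = A 0 0 * (A.submatrix Fin.succ Fin.succ).det := by
  rw [Matrix.det_succ_column_zero, Finset.sum_eq_single 0]
  · simp [Fin.succAbove_zero]
  · intro b _ hb
    obtain ⟨i, rfl⟩ := Fin.exists_succ_eq.mpr hb
    rw [h i]; ring
  · intro h'; exact absurd (mem_univ _) h'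

/-- If all row sums and column sums of `C` vanish, then `det (C + J) = (k+1)^2 det C'`, where `J`
is the all-ones matrix and `C'` is `C` without its first row and column. -/
theorem det_add_ones {R : Type*} [CommRing R] (k : ℕ) (C : Matrix (Fin (k + 1)) (Fin (k + 1)) R)
    (hrow : ∀ i, ∑ j, C i j = 0) (hcol : ∀ j, ∑ i, C i j = 0) :
    (Matrix.of fun i j => C i j + 1).det =
      ((k : R) + 1) ^ 2 * (C.submatrix Fin.succ Fin.succ).det := by
  set M : Matrix (Fin (k + 1)) (Fin (k + 1)) R := Matrix.of fun i j => C i j + 1 with hM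
  have s1 : M.det = ((k : R) + 1) * (M.updateRow 0 (fun _ => 1)).det := by
    have h1 := Matrix.det_updateRow_sum M 0 (fun _ => (1 : R))
    have hs : (∑ i, (1 : R) • M i) = ((k : R) + 1) • (fun _ => (1 : R)) := by
      funext j
      have hj : (∑ i, (1 : R) • M i) j = ∑ i, M i j := by
        rw [Finset.sum_apply]
        exact Finset.sum_congr rfl fun i _ => by rw [one_smul]
      rw [hj]
      have hj2 : ∑ i, M i j = ∑ i : Fin (k + 1), (C i j + 1) := rfl
      rw [hj2, Finset.sum_add_distrib, hcol]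
      simp
    rw [one_smul, hs] at h1
    rw [← h1, ← Matrix.det_updateRow_smul]
  set M1 := M.updateRow 0 (fun _ => (1 : R)) with hM1
  have s2 : M1.det = ((k : R) + 1) * (M1.updateCol 0 (fun _ => 1)).det := by
    have h1 := Matrix.det_updateCol_sum M1 0 (fun _ => (1 : R))
    rw [one_smul] at h1
    rw [← h1, ← Matrix.det_updateCol_smul]
    congr 2
    ext i
    simp only [Pi.smul_apply, smul_eq_mul, mul_one, one_mul]
    refine Fin.cases ?_ (fun i => ?_) i
    · simp [hM1, Matrix.updateRow_self]
    · have hne : i.succ ≠ (0 : Fin (k + 1)) := Fin.succ_ne_zero i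
      have hj2 : ∑ j, M1 i.succ j = ∑ j : Fin (k + 1), (C i.succ j + 1) := by
        refine Finset.sum_congr rfl fun j _ => ?_
        rw [hM1, Matrix.updateRow_ne hne]; rfl
      rw [hj2, Finset.sum_add_distrib, hrow]
      simp
  set M2 := M1.updateCol 0 (fun _ => (1 : R)) with hM2
  set B : Matrix (Fin (k + 1)) (Fin (k + 1)) R :=
    Matrix.of fun i j => if i = 0 then 1 else if j = 0 then 0 else C i j with hB
  have s3 : M2.det = B.det := by
    refine Matrix.det_eq_of_forall_row_eq_smul_add_const (fun i => if i = 0 then 0 else 1) 0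
      (by simp) ?_
    intro i j
    refine Fin.cases ?_ (fun i => ?_) i
    · refine Fin.cases ?_ (fun j => ?_) j
      · simp [hM2, hB]
      · simp [hM2, hM1, hB, Matrix.updateCol_ne (Fin.succ_ne_zero j), Matrix.updateRow_self]
    · refine Fin.cases ?_ (fun j => ?_) j
      · simp [hM2, hB, Fin.succ_ne_zero]
      · simp [hM2, hM1, hM, hB, Matrix.updateCol_ne (Fin.succ_ne_zero j),
          Matrix.updateRow_ne (Fin.succ_ne_zero i), Fin.succ_ne_zero]
  have s4 : B.det = (C.submatrix Fin.succ Fin.succ).det := by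
    rw [det_zero_col k B (fun i => by simp [hB, Fin.succ_ne_zero])]
    have : B 0 0 = 1 := by simp [hB]
    rw [this, one_mul]
    congr 1
  rw [s1, s2, s3, s4]
  ring

/-- The bordered matrix. -/
theorem det_bordered {R : Type*} [CommRing R] [IsDomain R] (k : ℕ)
    (C : Matrix (Fin (k + 1)) (Fin (k + 1)) R)
    (hrow : ∀ i, ∑ j, C i j = 0) (T : Matrix (Fin (k + 2)) (Fin (k + 2)) R)
    (h00 : T 0 0 = 0) (h0 : ∀ j : Fin (k + 1), T 0 j.succ = -1)
    (h1 : ∀ i : Fin (k + 1), T i.succ 0 = 1)
    (h2 : ∀ i j : Fin (k + 1), T i.succ j.succ = C i j) :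
    T.det = (Matrix.of fun i j => C i j + 1).det := by
  have hC : C.det = 0 := by
    rw [← Matrix.exists_mulVec_eq_zero_iff]
    refine ⟨fun _ => 1, ?_, ?_⟩
    · intro h
      have := congrFun h 0
      simp at this
    · ext i
      simp [Matrix.mulVec, dotProduct, hrow]
  -- first row e₀
  have hE : (T.updateRow 0 (Pi.single 0 1)).det = 0 := by
    rw [← Matrix.det_transpose, det_zero_col (k + 1) _ (fun i => ?_)]
    · have : ((T.updateRow 0 (Pi.single 0 1)).transpose.submatrix Fin.succ Fin.succ) =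
          C.transpose := by
        ext i j
        simp [Matrix.updateRow_ne (Fin.succ_ne_zero j), h2]
      rw [this, Matrix.det_transpose, hC, mul_zero]
    · simp [Matrix.updateRow_self, Fin.succ_ne_zero]
  have hsum : (T.updateRow 0 (T 0 + Pi.single 0 1)).det = T.det := by
    rw [Matrix.det_updateRow_add, hE, add_zero, Matrix.updateRow_eq_self]
  rw [← hsum]
  set B : Matrix (Fin (k + 2)) (Fin (k + 2)) R :=
    Matrix.of (Fin.cons (Fin.cons 1 (fun _ => -1))
      (fun i => Fin.cons 0 (fun j => C i j + 1))) with hB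
  have s3 : (T.updateRow 0 (T 0 + Pi.single 0 1)).det = B.det := by
    refine Matrix.det_eq_of_forall_row_eq_smul_add_const (fun i => if i = 0 then 0 else 1) 0
      (by simp) ?_
    intro i j
    refine Fin.cases ?_ (fun i => ?_) i
    · refine Fin.cases ?_ (fun j => ?_) j
      · simp [hB, h00]
      · simp [hB, h0, Fin.succ_ne_zero]
    · refine Fin.cases ?_ (fun j => ?_) j
      · simp [hB, h1, Matrix.updateRow_ne (Fin.succ_ne_zero i), Fin.succ_ne_zero]
      · simp [hB, h2, Matrix.updateRow_ne (Fin.succ_ne_zero i), Fin.succ_ne_zero]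
  rw [s3, det_zero_col (k + 1) B (fun i => by simp [hB])]
  have hB0 : B 0 0 = 1 := by simp [hB]
  rw [hB0, one_mul]
  congr 1

end Pool.Agent.Lib.MP_b23923_nt
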