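import Mathlib

set_option autoImplicit false

namespace Pool.Agent.Lib.MP_b23923_nt

open Finset

section circ

variable {K : Type*} [Field K] {n : ℕ} [NeZero n]

/-- Determinant of a circulant matrix. -/
theorem det_circulant (ψ : AddChar (ZMod n) K) (hψ : ψ.IsPrimitive) (hn : (n : K) ≠ 0)
    (v : ZMod n → K) :
    (Matrix.circulant v).det = ∏ j : ZMod n, ∑ m : ZMod n, v m * ψ (-(m * j)) := by
  classical
  set F : Matrix (ZMod n) (ZMod n) K := Matrix.of fun i j => ψ (i * j) with hF
  set G : Matrix (ZMod n) (ZMod n) K := Matrix.of fun i j => ψ (-(i * j)) with hG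
  have hFG : F * G = (n : K) • (1 : Matrix (ZMod n) (ZMod n) K) := by
    ext i j
    rw [Matrix.mul_apply]
    simp only [hF, hG, Matrix.of_apply, Matrix.smul_apply, Matrix.one_apply, smul_eq_mul]
    have h1 : ∀ x : ZMod n, ψ (i * x) * ψ (-(x * j)) = ψ (x * (i - j)) := by
      intro x
      rw [← AddChar.map_add_eq_mul]
      congr 1
      ring
    simp_rw [h1]
    rw [AddChar.sum_mulShift (i - j) hψ]
    by_cases h : i = j
    · simp [h, ZMod.card]
    · have : i - j ≠ 0 := sub_ne_zero.mpr h
      simp [h, this]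
  have hFdet : F.det ≠ 0 := by
    intro h0
    have h1 : (F * G).det = 0 := by rw [Matrix.det_mul, h0, zero_mul]
    rw [hFG, Matrix.det_smul, Matrix.det_one, mul_one] at h1
    exact hn (pow_eq_zero_iff (by simp [ZMod.card, NeZero.ne n]) |>.mp h1)
  have hCF : Matrix.circulant v * F = F * Matrix.diagonal
      (fun j => ∑ m : ZMod n, v m * ψ (-(m * j))) := by
    ext i j
    rw [Matrix.mul_apply, Matrix.mul_diagonal]
    simp only [hF, Matrix.of_apply, Matrix.circulant_apply]
    rw [Finset.mul_sum]
    rw [← (Equiv.subLeft i).sum_comp]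
    refine Finset.sum_congr rfl fun x _ => ?_
    have h2 : (i - (Equiv.subLeft i) x : ZMod n) = x := by simp
    rw [h2]
    have h3 : ψ ((Equiv.subLeft i) x * j) = ψ (i * j) * ψ (-(x * j)) := by
      rw [← AddChar.map_add_eq_mul]
      congr 1
      simp only [Equiv.subLeft_apply]
      ring
    rw [h3]
    ring
  have hdet := congrArg Matrix.det hCF
  rw [Matrix.det_mul, Matrix.det_mul, Matrix.det_diagonal, mul_comm] at hdet
  exact mul_left_cancel₀ hFdet hdet

end circ

end Pool.Agent.Lib.MP_b23923_nt
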