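import Mathlib

set_option autoImplicit false

namespace Pool.Agent.Lib.MP_b23923_nt

open Finset

theorem sum_zmod_eq_range {A : Type*} [AddCommMonoid A] (N : ℕ) [NeZero N] (f : ZMod N → A) :
    ∑ x : ZMod N, f x = ∑ i ∈ range N, f (i : ZMod N) := by
  refine Finset.sum_nbij' (fun x : ZMod N => x.val) (fun i : ℕ => (i : ZMod N)) ?_ ?_ ?_ ?_ ?_
  · intro x _
    exact mem_range.mpr (ZMod.val_lt x)
  · intro i _
    exact mem_univ _
  · intro x _
    exact ZMod.natCast_zmod_val x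
  · intro i hi
    exact ZMod.val_cast_of_lt (mem_range.mp hi)
  · intro x _
    rw [ZMod.natCast_zmod_val x]

/-- Splitting a sum over `ZMod (2 r)` into `±` pairs. -/
theorem sum_zmod_two_mul {A : Type*} [AddCommGroup A] (r : ℕ) (hr : 1 ≤ r)
    (f : ZMod (2 * r) → A) [NeZero (2 * r)] (h0 : f 0 = 0) (hr0 : f (r : ZMod (2 * r)) = 0) :
    ∑ x : ZMod (2 * r), f x =
      ∑ j : Fin (r - 1), (f ((j : ℕ) + 1 : ℕ) + f (-((j : ℕ) + 1 : ℕ))) := by
  obtain ⟨s, rfl⟩ : ∃ s, r = s + 1 := ⟨r - 1, by omega⟩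
  rw [sum_zmod_eq_range]
  have hN : 2 * (s + 1) = (s + 1) + 1 + s := by ring
  rw [Finset.sum_congr (congrArg range hN) (fun _ _ => rfl)]
  rw [Finset.sum_range_add, Finset.sum_range_succ, Finset.sum_range_succ', hr0]
  have h00 : f ((0 : ℕ) : ZMod (2 * (s + 1))) = 0 := by simpa using h0
  rw [h00, add_zero, add_zero]
  have hs : s + 1 - 1 = s := by omega
  rw [Finset.sum_add_distrib]
  have e1 : ∑ j : Fin (s + 1 - 1), f (((j : ℕ) + 1 : ℕ) : ZMod (2 * (s + 1))) =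
      ∑ i ∈ range s, f ((i + 1 : ℕ) : ZMod (2 * (s + 1))) := by
    rw [hs] 
    exact Fin.sum_univ_eq_sum_range (fun i => f ((i + 1 : ℕ) : ZMod (2 * (s + 1)))) s
  have e2 : ∑ j : Fin (s + 1 - 1), f (-(((j : ℕ) + 1 : ℕ) : ZMod (2 * (s + 1)))) =
      ∑ i ∈ range s, f (-((i + 1 : ℕ) : ZMod (2 * (s + 1)))) := by
    rw [hs] 
    exact Fin.sum_univ_eq_sum_range (fun i => f (-((i + 1 : ℕ) : ZMod (2 * (s + 1))))) s
  rw [e1, e2]
  congr 1
  rw [← Finset.sum_range_reflect]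
  refine Finset.sum_congr rfl fun i hi => ?_
  have hi' := mem_range.mp hi
  congr 1
  have : ((s + 1 + 1 + (s - 1 - i) : ℕ) : ZMod (2 * (s + 1))) + ((i + 1 : ℕ) : ZMod (2 * (s + 1)))
      = 0 := by
    rw [← Nat.cast_add]
    have h5 : s + 1 + 1 + (s - 1 - i) + (i + 1) = 2 * (s + 1) := by omega
    rw [h5, ZMod.natCast_self]
  exact eq_neg_of_add_eq_zero_left this

section

variable {K : Type*} [Field K]

/-- The Toeplitz minus Hankel matrix attached to a function on `ZMod (2 r)`. -/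
def oddMat {R : Type*} [Ring R] (r : ℕ) (e : ZMod (2 * r) → R) :
    Matrix (Fin (r - 1)) (Fin (r - 1)) R :=
  Matrix.of fun i j => e (((i : ℕ) + 1 : ℕ) - ((j : ℕ) + 1 : ℕ)) -
    e (((i : ℕ) + 1 : ℕ) + ((j : ℕ) + 1 : ℕ))

theorem det_oddMat (r : ℕ) (hr : 1 ≤ r) [NeZero (2 * r)] (ψ : AddChar (ZMod (2 * r)) K)
    (hψ : ψ.IsPrimitive) (hn : ((2 * r : ℕ) : K) ≠ 0) (e : ZMod (2 * r) → K)
    (he : ∀ x, e (-x) = e x) :
    (oddMat r e).det = ∏ b : Fin (r - 1), ∑ m : ZMod (2 * r), e m * ψ (m * ((b : ℕ) + 1 : ℕ)) := by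
  classical
  set V : Matrix (Fin (r - 1)) (Fin (r - 1)) K := Matrix.of fun j b =>
    ψ ((((j : ℕ) + 1 : ℕ) : ZMod (2 * r)) * (((b : ℕ) + 1 : ℕ) : ZMod (2 * r))) -
    ψ (-((((j : ℕ) + 1 : ℕ) : ZMod (2 * r)) * (((b : ℕ) + 1 : ℕ) : ZMod (2 * r)))) with hV
  have hrr : (r : ZMod (2 * r)) + r = 0 := by
    have : ((2 * r : ℕ) : ZMod (2 * r)) = 0 := ZMod.natCast_self _
    push_cast at this
    rw [← this]; ring
  -- the odd function in the first variable
  have hodd0 : ∀ y : ZMod (2 * r), ψ (0 * y) - ψ (-(0 * y)) = 0 := by intro y; simp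
  have hoddr : ∀ y : ZMod (2 * r), ψ ((r : ZMod (2 * r)) * y) - ψ (-((r : ZMod (2 * r)) * y)) = 0 := by
    intro y
    have : -((r : ZMod (2 * r)) * y) = (r : ZMod (2 * r)) * y := by
      rw [neg_eq_iff_add_eq_zero, ← add_mul, hrr, zero_mul]
    rw [this, sub_self]
  have key : ∀ (i : ZMod (2 * r)) (y : ZMod (2 * r)),
      ∑ j : Fin (r - 1), (e (i - ((j : ℕ) + 1 : ℕ)) - e (i + ((j : ℕ) + 1 : ℕ))) *
        (ψ ((((j : ℕ) + 1 : ℕ) : ZMod (2 * r)) * y) - ψ (-((((j : ℕ) + 1 : ℕ) : ZMod (2 * r)) * y)))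
      = (ψ (i * y) - ψ (-(i * y))) * ∑ m : ZMod (2 * r), e m * ψ (m * y) := by
    intro i y
    have h1 := sum_zmod_two_mul r hr (fun x : ZMod (2 * r) => e (i - x) * (ψ (x * y) - ψ (-(x * y))))
      (by simp) (by rw [hoddr y, mul_zero])
    have h2 : ∑ j : Fin (r - 1), (e (i - ((j : ℕ) + 1 : ℕ)) - e (i + ((j : ℕ) + 1 : ℕ))) *
        (ψ ((((j : ℕ) + 1 : ℕ) : ZMod (2 * r)) * y) - ψ (-((((j : ℕ) + 1 : ℕ) : ZMod (2 * r)) * y)))
        = ∑ x : ZMod (2 * r), e (i - x) * (ψ (x * y) - ψ (-(x * y))) := by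
      rw [h1]
      refine Finset.sum_congr rfl fun j _ => ?_
      rw [sub_neg_eq_add, neg_mul, neg_neg]
      ring
    rw [h2, ← (Equiv.subLeft i).sum_comp]
    have h3 : ∀ x : ZMod (2 * r), e (i - (Equiv.subLeft i) x) *
        (ψ ((Equiv.subLeft i) x * y) - ψ (-((Equiv.subLeft i) x * y))) =
        ψ (i * y) * (e x * ψ (-(x * y))) - ψ (-(i * y)) * (e x * ψ (x * y)) := by
      intro x
      simp only [Equiv.subLeft_apply, sub_sub_cancel]
      have h4 : ψ ((i - x) * y) = ψ (i * y) * ψ (-(x * y)) := by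
        rw [← AddChar.map_add_eq_mul]; congr 1; ring
      have h5 : ψ (-((i - x) * y)) = ψ (-(i * y)) * ψ (x * y) := by
        rw [← AddChar.map_add_eq_mul]; congr 1; ring
      rw [h4, h5]; ring
    rw [Finset.sum_congr rfl fun x _ => h3 x, Finset.sum_sub_distrib, ← Finset.mul_sum,
      ← Finset.mul_sum]
    have h6 : ∑ x : ZMod (2 * r), e x * ψ (-(x * y)) = ∑ x : ZMod (2 * r), e x * ψ (x * y) := by
      refine Fintype.sum_equiv (Equiv.neg (ZMod (2 * r))) _ _ fun x => ?_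
      simp only [Equiv.neg_apply]
      rw [he, neg_mul]
    rw [h6]; ring
  -- V * V = -2r
  have hVV : V * V = (-((2 * r : ℕ) : K)) • (1 : Matrix (Fin (r - 1)) (Fin (r - 1)) K) := by
    ext i b
    rw [Matrix.mul_apply]
    simp only [hV, Matrix.of_apply, Matrix.smul_apply, Matrix.one_apply, smul_eq_mul]
    set I : ZMod (2 * r) := (((i : ℕ) + 1 : ℕ) : ZMod (2 * r)) with hI
    set B : ZMod (2 * r) := (((b : ℕ) + 1 : ℕ) : ZMod (2 * r)) with hB
    have h1 := sum_zmod_two_mul r hr (fun x : ZMod (2 * r) =>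
      (ψ (I * x) - ψ (-(I * x))) * (ψ (x * B) - ψ (-(x * B))))
      (by simp) (by rw [hoddr B, mul_zero])
    have h2 : ∑ x : ZMod (2 * r), (ψ (I * x) - ψ (-(I * x))) * (ψ (x * B) - ψ (-(x * B))) =
        2 * ∑ j : Fin (r - 1), (ψ (I * (((j : ℕ) + 1 : ℕ) : ZMod (2 * r))) -
          ψ (-(I * (((j : ℕ) + 1 : ℕ) : ZMod (2 * r))))) *
          (ψ ((((j : ℕ) + 1 : ℕ) : ZMod (2 * r)) * B) -
            ψ (-((((j : ℕ) + 1 : ℕ) : ZMod (2 * r)) * B))) := by
      rw [h1, Finset.mul_sum]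
      refine Finset.sum_congr rfl fun j _ => ?_
      simp only [mul_neg, neg_mul, neg_neg]
      ring
    have h3 : ∑ x : ZMod (2 * r), (ψ (I * x) - ψ (-(I * x))) * (ψ (x * B) - ψ (-(x * B))) =
        (∑ x : ZMod (2 * r), ψ (x * (I + B))) + (∑ x : ZMod (2 * r), ψ (x * (-(I + B))))
        - (∑ x : ZMod (2 * r), ψ (x * (I - B))) - (∑ x : ZMod (2 * r), ψ (x * (B - I))) := by
      rw [← Finset.sum_add_distrib, ← Finset.sum_sub_distrib, ← Finset.sum_sub_distrib]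
      refine Finset.sum_congr rfl fun x _ => ?_
      have a1 : ψ (x * (I + B)) = ψ (I * x) * ψ (x * B) := by
        rw [← AddChar.map_add_eq_mul]; congr 1; ring
      have a2 : ψ (x * (-(I + B))) = ψ (-(I * x)) * ψ (-(x * B)) := by
        rw [← AddChar.map_add_eq_mul]; congr 1; ring
      have a3 : ψ (x * (I - B)) = ψ (I * x) * ψ (-(x * B)) := by
        rw [← AddChar.map_add_eq_mul]; congr 1; ring
      have a4 : ψ (x * (B - I)) = ψ (-(I * x)) * ψ (x * B) := by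
        rw [← AddChar.map_add_eq_mul]; congr 1; ring
      rw [a1, a2, a3, a4]; ring
    rw [AddChar.sum_mulShift _ hψ, AddChar.sum_mulShift _ hψ, AddChar.sum_mulShift _ hψ,
      AddChar.sum_mulShift _ hψ] at h3
    have hi := i.isLt
    have hb := b.isLt
    have hIB : I + B ≠ 0 := by
      rw [hI, hB, ← Nat.cast_add, Ne, ZMod.natCast_eq_zero_iff]
      intro hd
      have := Nat.le_of_dvd (by omega) hd
      omega
    have hIB' : -(I + B) ≠ 0 := neg_ne_zero.mpr hIB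
    have h2ne : (2 : K) ≠ 0 := by
      intro h
      apply hn
      push_cast
      rw [h, zero_mul]
    simp only [if_neg hIB, if_neg hIB'] at h3
    rw [h2] at h3
    by_cases hib : i = b
    · subst hib
      have : I - B = 0 := by rw [hI, hB, sub_self]
      have h' : B - I = 0 := by rw [hI, hB, sub_self]
      simp only [if_pos this, if_pos h', ZMod.card] at h3
      rw [if_pos rfl]
      have h4 : (2 : K) * (∑ j : Fin (r - 1), (ψ (I * (((j : ℕ) + 1 : ℕ) : ZMod (2 * r))) -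
          ψ (-(I * (((j : ℕ) + 1 : ℕ) : ZMod (2 * r))))) *
          (ψ ((((j : ℕ) + 1 : ℕ) : ZMod (2 * r)) * B) -
            ψ (-((((j : ℕ) + 1 : ℕ) : ZMod (2 * r)) * B)))) = 2 * (-((2 * r : ℕ) : K) * 1) := by
        rw [h3]; push_cast; ring
      exact mul_left_cancel₀ h2ne h4
    · have hne : I - B ≠ 0 := by
        intro h
        apply hib
        rw [sub_eq_zero, hI, hB, ZMod.natCast_eq_natCast_iff, Nat.ModEq,
          Nat.mod_eq_of_lt (by omega), Nat.mod_eq_of_lt (by omega)] at h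
        ext; omega
      have hne' : B - I ≠ 0 := by
        intro h; apply hne; rw [← neg_sub, h, neg_zero]
      simp only [if_neg hne, if_neg hne'] at h3
      rw [if_neg hib]
      have h4 : (2 : K) * (∑ j : Fin (r - 1), (ψ (I * (((j : ℕ) + 1 : ℕ) : ZMod (2 * r))) -
          ψ (-(I * (((j : ℕ) + 1 : ℕ) : ZMod (2 * r))))) *
          (ψ ((((j : ℕ) + 1 : ℕ) : ZMod (2 * r)) * B) -
            ψ (-((((j : ℕ) + 1 : ℕ) : ZMod (2 * r)) * B)))) = 2 * (-((2 * r : ℕ) : K) * 0) := by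
        rw [h3]; push_cast; ring
      exact mul_left_cancel₀ h2ne h4
  have hVdet : V.det ≠ 0 := by
    intro h0
    have h1 : (V * V).det = 0 := by rw [Matrix.det_mul, h0, zero_mul]
    rw [hVV, Matrix.det_smul, Matrix.det_one, mul_one] at h1
    exact (pow_ne_zero _ (neg_ne_zero.mpr hn)) h1
  have hMV : oddMat r e * V = V * Matrix.diagonal
      (fun b : Fin (r - 1) => ∑ m : ZMod (2 * r), e m * ψ (m * ((b : ℕ) + 1 : ℕ))) := by
    ext i b
    rw [Matrix.mul_apply, Matrix.mul_diagonal]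
    simp only [hV, oddMat, Matrix.of_apply]
    exact key _ _
  have hdet := congrArg Matrix.det hMV
  rw [Matrix.det_mul, Matrix.det_mul, Matrix.det_diagonal, mul_comm] at hdet
  exact mul_left_cancel₀ hVdet hdet

end

end Pool.Agent.Lib.MP_b23923_nt
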