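import Mathlib
import Pool.Agent.Lib.MP_b23923_nt.Circ
import Pool.Agent.Lib.MP_b23923_nt.Odd

set_option autoImplicit false

namespace Pool.Agent.Lib.MP_b23923_nt

open Finset

/-- A function on `ZMod N` which is odd about `-1/2` has an even discrete primitive. -/
theorem exists_even_primitive (N : ℕ) [NeZero N] (h : ZMod N → ℤ)
    (hodd : ∀ m, h (-m - 1) = -h m) :
    ∃ e : ZMod N → ℤ, (∀ m, e m - e (m + 1) = h m) ∧ (∀ m, e (-m) = e m) := by
  have hsum : ∑ m : ZMod N, h m = 0 := by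
    have h1 : ∑ m : ZMod N, h (-m - 1) = ∑ m : ZMod N, h m := by
      refine Fintype.sum_equiv ((Equiv.neg (ZMod N)).trans (Equiv.subRight 1)) _ _ fun x => ?_
      simp
    have h2 : ∑ m : ZMod N, h (-m - 1) = -∑ m : ZMod N, h m := by
      rw [← Finset.sum_neg_distrib]
      exact Finset.sum_congr rfl fun m _ => hodd m
    omega
  set e : ZMod N → ℤ := fun x => -∑ i ∈ range x.val, h (i : ZMod N) with he
  have hstep : ∀ m, e m - e (m + 1) = h m := by
    intro m
    have hN : 0 < N := Nat.pos_of_ne_zero (NeZero.ne N)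
    by_cases hlt : m.val + 1 < N
    · have hv : (m + 1).val = m.val + 1 := by
        rw [ZMod.val_add, ZMod.val_one_eq_one_mod, Nat.add_mod_mod, Nat.mod_eq_of_lt hlt]
      simp only [he, hv, Finset.sum_range_succ, ZMod.natCast_zmod_val]
      ring
    · have hmv : m.val + 1 = N := by
        have := ZMod.val_lt m
        omega
      have hz : m + 1 = 0 := by
        have : ((m.val + 1 : ℕ) : ZMod N) = 0 := by rw [hmv]; exact ZMod.natCast_self N
        rw [Nat.cast_add, ZMod.natCast_zmod_val, Nat.cast_one] at this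
        exact this
      have h3 : ∑ i ∈ range N, h (i : ZMod N) = 0 := by
        rw [← sum_zmod_eq_range]; exact hsum
      have h4 : ∑ i ∈ range N, h (i : ZMod N) =
          ∑ i ∈ range m.val, h (i : ZMod N) + h m := by
        rw [Finset.sum_congr (congrArg range hmv.symm) (fun _ _ => rfl),
          Finset.sum_range_succ, ZMod.natCast_zmod_val]
      simp only [he, hz, ZMod.val_zero, Finset.range_zero, Finset.sum_empty, neg_zero, sub_zero]
      rw [h4] at h3
      linarith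
  refine ⟨e, hstep, ?_⟩
  have hnat : ∀ k : ℕ, e (-(k : ZMod N)) = e (k : ZMod N) := by
    intro k
    induction k with
    | zero => simp
    | succ k ih =>
      have h1 := hstep (k : ZMod N)
      have h2 := hstep (-(k : ZMod N) - 1)
      rw [hodd] at h2
      have h3 : -(k : ZMod N) - 1 + 1 = -(k : ZMod N) := by ring
      rw [h3] at h2
      have h4 : (-((k + 1 : ℕ) : ZMod N)) = -(k : ZMod N) - 1 := by push_cast; ring
      have h5 : ((k + 1 : ℕ) : ZMod N) = (k : ZMod N) + 1 := by push_cast; ring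
      rw [h4, h5]
      linarith
  intro m
  have := hnat m.val
  rwa [ZMod.natCast_zmod_val] at this

section

variable {K : Type*} [Field K] {r : ℕ}

/-- The sign character of `ZMod (2 r)`. -/
noncomputable def sgn (r : ℕ) [NeZero (2 * r)] : AddChar (ZMod (2 * r)) ℤ :=
  AddChar.zmodChar (2 * r) (ζ := (-1 : ℤ)) (by rw [pow_mul]; simp)

theorem sgn_one (r : ℕ) [NeZero (2 * r)] : sgn r 1 = -1 := by
  have := AddChar.zmodChar_apply' (n := 2 * r) (ζ := (-1 : ℤ)) (by rw [pow_mul]; simp) 1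
  simpa [sgn] using this

theorem sgn_sq (m : ZMod (2 * r)) [NeZero (2 * r)] : sgn r m = 1 ∨ sgn r m = -1 := by
  simp only [sgn, AddChar.zmodChar_apply]
  exact neg_one_pow_eq_or ℤ _

theorem sgn_neg (m : ZMod (2 * r)) [NeZero (2 * r)] : sgn r (-m) = sgn r m := by
  have h : sgn r (-m) * sgn r m = 1 := by
    rw [← AddChar.map_add_eq_mul]; simp
  rcases sgn_sq m with h1 | h1 <;> rw [h1] at h ⊢ <;> linarith

theorem sgn_add_one (m : ZMod (2 * r)) [NeZero (2 * r)] :
    sgn r (m + 1) = -sgn r m := by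
  rw [AddChar.map_add_eq_mul, sgn_one r]; ring

theorem sgn_neg_sub_one (m : ZMod (2 * r)) [NeZero (2 * r)] :
    sgn r (-m - 1) = -sgn r m := by
  have h1 : -m - 1 = -(m + 1) := by ring
  rw [h1, sgn_neg, sgn_add_one]

/-- For `0 < B < r`, the sign character is orthogonal to `m ↦ ψ (m B)`. -/
theorem sum_sgn_mul (hr : 1 ≤ r) [NeZero (2 * r)] (ψ : AddChar (ZMod (2 * r)) K)
    (hψ : ψ.IsPrimitive) (b : Fin (r - 1)) :
    ∑ m : ZMod (2 * r), ((sgn r m : ℤ) : K) * ψ (m * (((b : ℕ) + 1 : ℕ) : ZMod (2 * r))) = 0 := by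
  set B : ZMod (2 * r) := (((b : ℕ) + 1 : ℕ) : ZMod (2 * r)) with hB
  have hb := b.isLt
  have h1 : ∑ m : ZMod (2 * r), ((sgn r m : ℤ) : K) * ψ (m * B) =
      ∑ m : ZMod (2 * r), ((sgn r (m + 1) : ℤ) : K) * ψ ((m + 1) * B) := by
    symm
    exact Fintype.sum_equiv (Equiv.addRight 1) _ _ fun x => rfl
  have h2 : ∑ m : ZMod (2 * r), ((sgn r (m + 1) : ℤ) : K) * ψ ((m + 1) * B) =
      -(ψ B) * ∑ m : ZMod (2 * r), ((sgn r m : ℤ) : K) * ψ (m * B) := by
    rw [Finset.mul_sum]
    refine Finset.sum_congr rfl fun m _ => ?_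
    rw [sgn_add_one, add_mul, one_mul, AddChar.map_add_eq_mul]
    push_cast; ring
  set S := ∑ m : ZMod (2 * r), ((sgn r m : ℤ) : K) * ψ (m * B) with hS
  rw [h2] at h1
  have h3 : (1 + ψ B) * S = 0 := by linear_combination h1
  rcases mul_eq_zero.mp h3 with h4 | h4
  · exfalso
    have h5 : ψ (B + B) = 1 := by
      rw [AddChar.map_add_eq_mul]
      have : ψ B = -1 := by linear_combination h4
      rw [this]; ring
    have hBB : B + B ≠ 0 := by
      rw [hB, ← Nat.cast_add, Ne, ZMod.natCast_eq_zero_iff]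
      intro hd
      have := Nat.le_of_dvd (by omega) hd
      omega
    apply hψ hBB
    ext m
    rw [AddChar.mulShift_apply, AddChar.one_apply]
    -- ψ ((B+B) * m) = 1
    have h6 : ∀ k : ℕ, ψ ((B + B) * (k : ZMod (2 * r))) = 1 := by
      intro k
      rw [mul_comm (B + B) (k : ZMod (2 * r)), ← nsmul_eq_mul, AddChar.map_nsmul_eq_pow, h5,
        one_pow]
    have := h6 m.val
    rwa [ZMod.natCast_zmod_val] at this
  · exact h4

theorem sum_delta (hr : 1 ≤ r) [NeZero (2 * r)] (ψ : AddChar (ZMod (2 * r)) K)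
    (hψ : ψ.IsPrimitive) (δ e : ZMod (2 * r) → ℤ)
    (he : ∀ m, 2 * (e m - e (m + 1)) = δ m - sgn r m) (b : Fin (r - 1)) :
    ∑ m : ZMod (2 * r), (δ m : K) * ψ (m * (((b : ℕ) + 1 : ℕ) : ZMod (2 * r))) =
      2 * (1 - ψ (-(((b : ℕ) + 1 : ℕ) : ZMod (2 * r)))) *
        ∑ m : ZMod (2 * r), (e m : K) * ψ (m * (((b : ℕ) + 1 : ℕ) : ZMod (2 * r))) := by
  have h0 := sum_sgn_mul hr ψ hψ b
  set B : ZMod (2 * r) := (((b : ℕ) + 1 : ℕ) : ZMod (2 * r)) with hB
  have h1 : ∑ m : ZMod (2 * r), ((e (m + 1) : ℤ) : K) * ψ (m * B) =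
      ψ (-B) * ∑ m : ZMod (2 * r), (e m : K) * ψ (m * B) := by
    rw [Finset.mul_sum]
    refine Fintype.sum_equiv (Equiv.addRight 1) _ _ fun x => ?_
    simp only [Equiv.coe_addRight]
    have : ψ (x * B) = ψ (-B) * ψ ((x + 1) * B) := by
      rw [← AddChar.map_add_eq_mul]; congr 1; ring
    rw [this]; ring
  have h2 : ∀ m : ZMod (2 * r), (δ m : K) * ψ (m * B) =
      2 * ((e m : K) * ψ (m * B)) - 2 * (((e (m + 1) : ℤ) : K) * ψ (m * B)) +
        ((sgn r m : ℤ) : K) * ψ (m * B) := by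
    intro m
    have h3 : δ m = 2 * (e m - e (m + 1)) + sgn r m := by linarith [he m]
    rw [h3]; push_cast; ring
  rw [Finset.sum_congr rfl fun m _ => h2 m, Finset.sum_add_distrib, Finset.sum_sub_distrib,
    ← Finset.mul_sum, ← Finset.mul_sum, h0, h1]
  ring

end

end Pool.Agent.Lib.MP_b23923_nt
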