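import Mathlib
import Pool.Agent.Lib.MP_b23923_nt.Seq

set_option autoImplicit false

namespace Pool.Agent.Lib.MP_b23923_nt

open Finset

theorem prod_zmod_eq_range {A : Type*} [CommMonoid A] (N : ℕ) [NeZero N] (f : ZMod N → A) :
    ∏ x : ZMod N, f x = ∏ i ∈ range N, f (i : ZMod N) := by
  refine Finset.prod_nbij' (fun x : ZMod N => x.val) (fun i : ℕ => (i : ZMod N)) ?_ ?_ ?_ ?_ ?_
  · intro x _
    exact mem_range.mpr (ZMod.val_lt x)
  · intro i _
    exact mem_univ _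
  · intro x _
    exact ZMod.natCast_zmod_val x
  · intro i hi
    exact ZMod.val_cast_of_lt (mem_range.mp hi)
  · intro x _
    rw [ZMod.natCast_zmod_val x]

/-- Splitting a product over `ZMod (2 r)` into `±` pairs. -/
theorem prod_zmod_two_mul {A : Type*} [CommMonoid A] (r : ℕ) (hr : 1 ≤ r)
    (f : ZMod (2 * r) → A) [NeZero (2 * r)] :
    ∏ x : ZMod (2 * r), f x = f 0 * f (r : ZMod (2 * r)) *
      ∏ j : Fin (r - 1), (f ((j : ℕ) + 1 : ℕ) * f (-((j : ℕ) + 1 : ℕ))) := by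
  obtain ⟨s, rfl⟩ : ∃ s, r = s + 1 := ⟨r - 1, by omega⟩
  rw [prod_zmod_eq_range]
  have hN : 2 * (s + 1) = (s + 1) + 1 + s := by ring
  rw [Finset.prod_congr (congrArg range hN) (fun _ _ => rfl)]
  rw [Finset.prod_range_add, Finset.prod_range_succ, Finset.prod_range_succ']
  have hs : s + 1 - 1 = s := by omega
  rw [Finset.prod_mul_distrib]
  have e1 : ∏ j : Fin (s + 1 - 1), f (((j : ℕ) + 1 : ℕ) : ZMod (2 * (s + 1))) =
      ∏ i ∈ range s, f ((i + 1 : ℕ) : ZMod (2 * (s + 1))) := by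
    rw [hs] 
    exact Fin.prod_univ_eq_prod_range (fun i => f ((i + 1 : ℕ) : ZMod (2 * (s + 1)))) s
  have e2 : ∏ j : Fin (s + 1 - 1), f (-(((j : ℕ) + 1 : ℕ) : ZMod (2 * (s + 1)))) =
      ∏ i ∈ range s, f (-((i + 1 : ℕ) : ZMod (2 * (s + 1)))) := by
    rw [hs] 
    exact Fin.prod_univ_eq_prod_range (fun i => f (-((i + 1 : ℕ) : ZMod (2 * (s + 1))))) s
  rw [e1, e2]
  have e3 : ∏ x ∈ range s, f ((s + 1 + 1 + x : ℕ) : ZMod (2 * (s + 1))) =
      ∏ i ∈ range s, f (-((i + 1 : ℕ) : ZMod (2 * (s + 1)))) := by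
    rw [← Finset.prod_range_reflect]
    refine Finset.prod_congr rfl fun i hi => ?_
    have hi' := mem_range.mp hi
    congr 1
    have : ((s + 1 + 1 + (s - 1 - i) : ℕ) : ZMod (2 * (s + 1))) +
        ((i + 1 : ℕ) : ZMod (2 * (s + 1))) = 0 := by
      rw [← Nat.cast_add]
      have h5 : s + 1 + 1 + (s - 1 - i) + (i + 1) = 2 * (s + 1) := by omega
      rw [h5, ZMod.natCast_self]
    exact eq_neg_of_add_eq_zero_left this
  rw [e3, Nat.cast_zero]
  simp only [mul_assoc, mul_comm]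

section

variable {K : Type*} [Field K] {r : ℕ}

theorem psi_r (hr : 1 ≤ r) [NeZero (2 * r)] (ψ : AddChar (ZMod (2 * r)) K)
    (hψ : ψ.IsPrimitive) : ψ (r : ZMod (2 * r)) = -1 := by
  have h1 : ψ (r : ZMod (2 * r)) * ψ (r : ZMod (2 * r)) = 1 := by
    rw [← AddChar.map_add_eq_mul]
    have : (r : ZMod (2 * r)) + r = 0 := by
      have : ((2 * r : ℕ) : ZMod (2 * r)) = 0 := ZMod.natCast_self _
      push_cast at this
      rw [← this]; ring
    rw [this, AddChar.map_zero_eq_one]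
  rcases mul_self_eq_one_iff.mp h1 with h | h
  · exfalso
    have hne : (r : ZMod (2 * r)) ≠ 0 := by
      rw [Ne, ZMod.natCast_eq_zero_iff]
      intro hd
      have := Nat.le_of_dvd (by omega) hd
      omega
    apply hψ hne
    ext m
    rw [AddChar.mulShift_apply, AddChar.one_apply]
    have h6 : ∀ k : ℕ, ψ ((r : ZMod (2 * r)) * (k : ZMod (2 * r))) = 1 := by
      intro k
      rw [mul_comm (r : ZMod (2 * r)) (k : ZMod (2 * r)), ← nsmul_eq_mul,
        AddChar.map_nsmul_eq_pow, h, one_pow]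
    have := h6 m.val
    rwa [ZMod.natCast_zmod_val] at this
  · exact h

theorem psi_mul_r (hr : 1 ≤ r) [NeZero (2 * r)] (ψ : AddChar (ZMod (2 * r)) K)
    (hψ : ψ.IsPrimitive) (m : ZMod (2 * r)) :
    ψ (-(m * (r : ZMod (2 * r)))) = ((sgn r m : ℤ) : K) := by
  have h0 : ψ (-(r : ZMod (2 * r))) = -1 := by
    have h1 : ψ (-(r : ZMod (2 * r))) * ψ (r : ZMod (2 * r)) = 1 := by
      rw [← AddChar.map_add_eq_mul]; simp
    rw [psi_r hr ψ hψ] at h1
    linear_combination -h1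
  have h6 : ∀ k : ℕ, ψ (-((k : ZMod (2 * r)) * (r : ZMod (2 * r)))) =
      ((sgn r (k : ZMod (2 * r)) : ℤ) : K) := by
    intro k
    have h2 : -((k : ZMod (2 * r)) * (r : ZMod (2 * r))) = k • (-(r : ZMod (2 * r))) := by
      rw [nsmul_eq_mul]; ring
    have h3 : (k : ZMod (2 * r)) = k • (1 : ZMod (2 * r)) := by rw [nsmul_eq_mul, mul_one]
    rw [h2, AddChar.map_nsmul_eq_pow, h0, h3, AddChar.map_nsmul_eq_pow, sgn_one]
    push_cast; rfl
  have := h6 m.val
  rwa [ZMod.natCast_zmod_val] at this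

theorem sum_psi_zero [NeZero (2 * r)] (ψ : AddChar (ZMod (2 * r)) K)
    (hψ : ψ.IsPrimitive) (y : ZMod (2 * r)) (hy : y ≠ 0) :
    ∑ m : ZMod (2 * r), ψ (-(m * y)) = 0 := by
  have h := AddChar.sum_mulShift (-y) hψ
  rw [if_neg (neg_ne_zero.mpr hy)] at h
  have h2 : ∀ m : ZMod (2 * r), ψ (-(m * y)) = ψ (m * -y) := fun m => by congr 1; ring
  rw [Finset.sum_congr rfl fun m _ => h2 m, h]
  simp

/-- The product `∏ (1 - ψ b) (1 - ψ (-b))` over `0 < b < r` equals `r`. -/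
theorem prod_one_sub (hr : 1 ≤ r) [NeZero (2 * r)] (ζ : K) (hζ : IsPrimitiveRoot ζ (2 * r))
    (h2 : (2 : K) ≠ 0) :
    ∏ b : Fin (r - 1), ((1 - AddChar.zmodChar (2 * r) hζ.pow_eq_one (((b : ℕ) + 1 : ℕ))) *
      (1 - AddChar.zmodChar (2 * r) hζ.pow_eq_one (-(((b : ℕ) + 1 : ℕ) : ZMod (2 * r))))) =
      (r : K) := by
  set ψ := AddChar.zmodChar (2 * r) hζ.pow_eq_one with hψd
  have hψ : ψ.IsPrimitive := AddChar.zmodChar_primitive_of_primitive_root (2 * r) hζ
  classical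
  have h1 := prod_zmod_two_mul r hr (fun x : ZMod (2 * r) => if x = 0 then (1 : K) else 1 - ψ x)
  have hrne : (r : ZMod (2 * r)) ≠ 0 := by
    rw [Ne, ZMod.natCast_eq_zero_iff]
    intro hd
    have := Nat.le_of_dvd (by omega) hd
    omega
  have h3 : ∏ x : ZMod (2 * r), (if x = 0 then (1 : K) else 1 - ψ x) = ((2 * r : ℕ) : K) := by
    rw [prod_zmod_eq_range]
    obtain ⟨N, hN⟩ : ∃ N, 2 * r = N + 1 := ⟨2 * r - 1, by omega⟩
    have hζ' : IsPrimitiveRoot ζ (N + 1) := hN ▸ hζ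
    have h4 := hζ'.prod_one_sub_pow_eq_order
    rw [Finset.prod_congr (congrArg range hN) (fun _ _ => rfl), Finset.prod_range_succ']
    rw [Nat.cast_zero, if_pos rfl, mul_one]
    have hcast : ((2 * r : ℕ) : K) = (N : K) + 1 := by
      rw [congrArg (Nat.cast : ℕ → K) hN]; push_cast; rfl
    rw [hcast, ← h4]
    refine Finset.prod_congr rfl fun i hi => ?_
    have hi' := mem_range.mp hi
    have hne : ((i + 1 : ℕ) : ZMod (2 * r)) ≠ 0 := by
      rw [Ne, ZMod.natCast_eq_zero_iff]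
      intro hd
      have := Nat.le_of_dvd (by omega) hd
      omega
    rw [if_neg hne]
    rw [hψd, AddChar.zmodChar_apply']
  rw [h3] at h1
  rw [if_pos rfl, if_neg hrne, psi_r hr ψ hψ] at h1
  have h5 : ∏ b : Fin (r - 1), ((1 - ψ (((b : ℕ) + 1 : ℕ))) *
      (1 - ψ (-(((b : ℕ) + 1 : ℕ) : ZMod (2 * r))))) =
      ∏ j : Fin (r - 1), ((if (((j : ℕ) + 1 : ℕ) : ZMod (2 * r)) = 0 then (1 : K) else
        1 - ψ (((j : ℕ) + 1 : ℕ))) * (if (-(((j : ℕ) + 1 : ℕ) : ZMod (2 * r))) = 0 then (1 : K) else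
        1 - ψ (-(((j : ℕ) + 1 : ℕ) : ZMod (2 * r))))) := by
    refine Finset.prod_congr rfl fun j _ => ?_
    have hj := j.isLt
    have hne : (((j : ℕ) + 1 : ℕ) : ZMod (2 * r)) ≠ 0 := by
      rw [Ne, ZMod.natCast_eq_zero_iff]
      intro hd
      have := Nat.le_of_dvd (by omega) hd
      omega
    rw [if_neg hne, if_neg (neg_ne_zero.mpr hne)]
  rw [h5]
  have h6 : (2 : K) * (r : K) = 2 * ∏ j : Fin (r - 1),
      ((if (((j : ℕ) + 1 : ℕ) : ZMod (2 * r)) = 0 then (1 : K) else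
        1 - ψ (((j : ℕ) + 1 : ℕ))) * (if (-(((j : ℕ) + 1 : ℕ) : ZMod (2 * r))) = 0 then (1 : K) else
        1 - ψ (-(((j : ℕ) + 1 : ℕ) : ZMod (2 * r))))) := by
    push_cast at h1 ⊢
    rw [h1]; ring
  exact (mul_left_cancel₀ h2 h6).symm

/-- Value of the circulant determinant attached to `v m = 1 - δ (m - u)`. -/
theorem det_circ_value (hr : 1 ≤ r) [NeZero (2 * r)] (ζ : K) (hζ : IsPrimitiveRoot ζ (2 * r))
    (h2 : (2 : K) ≠ 0) (hn : ((2 * r : ℕ) : K) ≠ 0) (δ e : ZMod (2 * r) → ℤ)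
    (hδ : ∀ m, δ (-m - 1) = -δ m)
    (he : ∀ m, 2 * (e m - e (m + 1)) = δ m - sgn r m) (heven : ∀ m, e (-m) = e m)
    (u : ZMod (2 * r)) :
    (Matrix.circulant fun m : ZMod (2 * r) => ((1 - δ (m - u) : ℤ) : K)).det =
      ((2 * r : ℕ) : K) * ((∑ m : ZMod (2 * r), (-δ (m - u)) * sgn r m : ℤ) : K) *
        (4 ^ (r - 1) * (r : K) * (((oddMat r e).det : ℤ) : K) ^ 2) := by
  set ψ := AddChar.zmodChar (2 * r) hζ.pow_eq_one with hψd
  have hψ : ψ.IsPrimitive := AddChar.zmodChar_primitive_of_primitive_root (2 * r) hζ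
  have hsumδ : ∑ m : ZMod (2 * r), δ m = 0 := by
    have h1 : ∑ m : ZMod (2 * r), δ (-m - 1) = ∑ m : ZMod (2 * r), δ m := by
      refine Fintype.sum_equiv ((Equiv.neg (ZMod (2 * r))).trans (Equiv.subRight 1)) _ _
        fun x => ?_
      simp
    have h2 : ∑ m : ZMod (2 * r), δ (-m - 1) = -∑ m : ZMod (2 * r), δ m := by
      rw [← Finset.sum_neg_distrib]
      exact Finset.sum_congr rfl fun m _ => hδ m
    omega
  rw [det_circulant ψ hψ hn, prod_zmod_two_mul r hr]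
  -- the zero frequency
  have f0 : ∑ m : ZMod (2 * r), ((1 - δ (m - u) : ℤ) : K) * ψ (-(m * 0)) = ((2 * r : ℕ) : K) := by
    have h1 : ∑ m : ZMod (2 * r), ((1 - δ (m - u) : ℤ) : K) * ψ (-(m * 0)) =
        ((∑ m : ZMod (2 * r), (1 - δ (m - u)) : ℤ) : K) := by
      push_cast
      refine Finset.sum_congr rfl fun m _ => ?_
      rw [mul_zero, neg_zero, AddChar.map_zero_eq_one, mul_one]
    rw [h1, Finset.sum_sub_distrib]
    have h3 : ∑ m : ZMod (2 * r), δ (m - u) = ∑ m : ZMod (2 * r), δ m :=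
      Fintype.sum_equiv (Equiv.subRight u) _ _ fun x => rfl
    rw [h3, hsumδ]
    simp [ZMod.card]
  have fr : ∑ m : ZMod (2 * r), ((1 - δ (m - u) : ℤ) : K) * ψ (-(m * (r : ZMod (2 * r)))) =
      ((∑ m : ZMod (2 * r), (-δ (m - u)) * sgn r m : ℤ) : K) := by
    have h1 : ∀ m : ZMod (2 * r), ((1 - δ (m - u) : ℤ) : K) * ψ (-(m * (r : ZMod (2 * r)))) =
        ψ (-(m * (r : ZMod (2 * r)))) + (((-δ (m - u)) * sgn r m : ℤ) : K) := by
      intro m
      rw [psi_mul_r hr ψ hψ]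
      push_cast; ring
    have hrne : (r : ZMod (2 * r)) ≠ 0 := by
      rw [Ne, ZMod.natCast_eq_zero_iff]
      intro hd
      have := Nat.le_of_dvd (by omega) hd
      omega
    rw [Finset.sum_congr rfl fun m _ => h1 m, Finset.sum_add_distrib,
      sum_psi_zero ψ hψ _ hrne, zero_add]
    push_cast; rfl
  rw [f0, fr]
  -- the paired frequencies
  have hpair : ∀ b : Fin (r - 1),
      (∑ m : ZMod (2 * r), ((1 - δ (m - u) : ℤ) : K) *
        ψ (-(m * (((b : ℕ) + 1 : ℕ) : ZMod (2 * r))))) *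
      (∑ m : ZMod (2 * r), ((1 - δ (m - u) : ℤ) : K) *
        ψ (-(m * -(((b : ℕ) + 1 : ℕ) : ZMod (2 * r))))) =
      4 * ((1 - ψ (((b : ℕ) + 1 : ℕ))) * (1 - ψ (-(((b : ℕ) + 1 : ℕ) : ZMod (2 * r))))) *
        (∑ m : ZMod (2 * r), (e m : K) * ψ (m * ((b : ℕ) + 1 : ℕ))) ^ 2 := by
    intro b
    have hb := b.isLt
    have hμ := sum_delta hr ψ hψ δ e he b
    set B : ZMod (2 * r) := (((b : ℕ) + 1 : ℕ) : ZMod (2 * r)) with hB
    have hBne : B ≠ 0 := by
      rw [hB, Ne, ZMod.natCast_eq_zero_iff]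
      intro hd
      have := Nat.le_of_dvd (by omega) hd
      omega
    set Δ : K := ∑ m : ZMod (2 * r), (δ m : K) * ψ (m * B) with hΔ
    set μ : K := ∑ m : ZMod (2 * r), (e m : K) * ψ (m * B) with hμd
    have hψB : ψ B * ψ (-B) = 1 := by
      rw [← AddChar.map_add_eq_mul]; simp
    have hψu : ψ (u * B) * ψ (-(u * B)) = 1 := by
      rw [← AddChar.map_add_eq_mul]; simp
    have g1 : ∑ m : ZMod (2 * r), ((1 - δ (m - u) : ℤ) : K) * ψ (-(m * -B)) =
        -ψ (u * B) * Δ := by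
      have h1 : ∀ m : ZMod (2 * r), ((1 - δ (m - u) : ℤ) : K) * ψ (-(m * -B)) =
          ψ (-(m * -B)) - (δ (m - u) : K) * ψ (m * B) := by
        intro m
        have : -(m * -B) = m * B := by ring
        rw [this]
        push_cast; ring
      rw [Finset.sum_congr rfl fun m _ => h1 m, Finset.sum_sub_distrib,
        sum_psi_zero ψ hψ _ (neg_ne_zero.mpr hBne), zero_sub]
      have h3 : ∑ m : ZMod (2 * r), (δ (m - u) : K) * ψ (m * B) = ψ (u * B) * Δ := by
        rw [hΔ, Finset.mul_sum]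
        refine Fintype.sum_equiv (Equiv.subRight u) _ _ fun x => ?_
        simp only [Equiv.subRight_apply]
        have : ψ (x * B) = ψ (u * B) * ψ ((x - u) * B) := by
          rw [← AddChar.map_add_eq_mul]; congr 1; ring
        rw [this]; ring
      rw [h3]; ring
    have g2 : ∑ m : ZMod (2 * r), ((1 - δ (m - u) : ℤ) : K) * ψ (-(m * B)) =
        ψ (-(u * B)) * (ψ B * Δ) := by
      have h1 : ∀ m : ZMod (2 * r), ((1 - δ (m - u) : ℤ) : K) * ψ (-(m * B)) =
          ψ (-(m * B)) - (δ (m - u) : K) * ψ (-(m * B)) := by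
        intro m
        push_cast; ring
      rw [Finset.sum_congr rfl fun m _ => h1 m, Finset.sum_sub_distrib,
        sum_psi_zero ψ hψ _ hBne, zero_sub]
      have h3 : ∑ m : ZMod (2 * r), (δ (m - u) : K) * ψ (-(m * B)) =
          ψ (-(u * B)) * ∑ m : ZMod (2 * r), (δ m : K) * ψ (-(m * B)) := by
        rw [Finset.mul_sum]
        refine Fintype.sum_equiv (Equiv.subRight u) _ _ fun x => ?_
        simp only [Equiv.subRight_apply]
        have : ψ (-(x * B)) = ψ (-(u * B)) * ψ (-((x - u) * B)) := by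
          rw [← AddChar.map_add_eq_mul]; congr 1; ring
        rw [this]; ring
      have h4 : ∑ m : ZMod (2 * r), (δ m : K) * ψ (-(m * B)) = -(ψ B * Δ) := by
        rw [hΔ, Finset.mul_sum, ← Finset.sum_neg_distrib]
        refine Fintype.sum_equiv ((Equiv.neg (ZMod (2 * r))).trans (Equiv.subRight 1)) _ _
          fun x => ?_
        simp only [Equiv.trans_apply, Equiv.neg_apply, Equiv.subRight_apply]
        rw [hδ]
        have : ψ (-(x * B)) = ψ B * ψ ((-x - 1) * B) := by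
          rw [← AddChar.map_add_eq_mul]; congr 1; ring
        rw [this]; push_cast; ring
      rw [h3, h4]; ring
    rw [g1, g2, hμ]
    linear_combination (-4 * ψ B * (1 - ψ (-B)) ^ 2 * μ ^ 2) * hψu +
      (4 * (1 - ψ (-B)) * μ ^ 2) * hψB
  rw [Finset.prod_congr rfl fun b _ => hpair b, Finset.prod_mul_distrib,
    Finset.prod_mul_distrib, prod_one_sub hr ζ hζ h2, Finset.prod_pow, Finset.prod_const,
    Finset.card_univ, Fintype.card_fin]
  congr 1
  congr 1
  congr 1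
  have hmap : (((oddMat r e).det : ℤ) : K) = (oddMat r (fun m => (e m : K))).det := by
    have h1 : (((oddMat r e).det : ℤ) : K) = (Int.castRingHom K) (oddMat r e).det := rfl
    rw [h1, RingHom.map_det]
    congr 1
    ext i j
    simp [oddMat, RingHom.mapMatrix_apply, Matrix.map_apply]
  rw [hmap, det_oddMat r hr ψ hψ hn (fun m => (e m : K)) (fun x => by rw [heven])]

end

end Pool.Agent.Lib.MP_b23923_nt
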