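import Mathlib
import Pool.Agent.Lib.MP_b23923_nt.Value
import Pool.Agent.Lib.MP_b23923_nt.Border

set_option autoImplicit false

namespace Pool.Agent.Lib.MP_b23923_nt

open Finset

section

variable {p r : ℕ} [Fact p.Prime]

/-- The quadratic character of `ZMod p`. -/
noncomputable abbrev χ (p : ℕ) [Fact p.Prime] : MulChar (ZMod p) ℤ := quadraticChar (ZMod p)

theorem r_pos (hpr : p = 4 * r + 1) : 1 ≤ r := by
  rcases Nat.eq_zero_or_pos r with h | h
  · exfalso
    subst h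
    have := (Fact.out : p.Prime).one_lt
    omega
  · exact h

theorem ringChar_ne_two (hpr : p = 4 * r + 1) : ringChar (ZMod p) ≠ 2 := by
  rw [ZMod.ringChar_zmod_n]
  omega

theorem chi_pow (hpr : p = 4 * r + 1) (a : ZMod p) : ((χ p a : ℤ) : ZMod p) = a ^ (2 * r) := by
  have h := quadraticChar_eq_pow_of_char_ne_two' (ringChar_ne_two hpr) a
  rw [ZMod.card] at h
  have h2 : p / 2 = 2 * r := by omega
  rw [h2] at h
  exact h

theorem two_ne (hpr : p = 4 * r + 1) : (2 : ZMod p) ≠ 0 := by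
  have hr := r_pos hpr
  have : ((2 : ℕ) : ZMod p) ≠ 0 := by
    rw [Ne, ZMod.natCast_eq_zero_iff]
    intro h
    have := Nat.le_of_dvd (by norm_num) h
    omega
  exact_mod_cast this

theorem orderOf_gen (hpr : p = 4 * r + 1) (G : (ZMod p)ˣ)
    (hG : ∀ x, x ∈ Subgroup.zpowers G) : orderOf G = 4 * r := by
  rw [orderOf_eq_card_of_forall_mem_zpowers hG, Nat.card_eq_fintype_card, ZMod.card_units]
  omega

theorem gen_pow_two_mul (hpr : p = 4 * r + 1) (G : (ZMod p)ˣ)
    (hG : ∀ x, x ∈ Subgroup.zpowers G) : (G : ZMod p) ^ (2 * r) = -1 := by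
  have hr := r_pos hpr
  have ho := orderOf_gen hpr G hG
  have h1 : ((G : ZMod p) ^ (2 * r)) * ((G : ZMod p) ^ (2 * r)) = 1 := by
    rw [← pow_add, show 2 * r + 2 * r = 4 * r by ring, ← ho, ← Units.val_pow_eq_pow_val,
      pow_orderOf_eq_one, Units.val_one]
  rcases mul_self_eq_one_iff.mp h1 with h | h
  · exfalso
    have h2 : G ^ (2 * r) = 1 := by
      ext
      rw [Units.val_pow_eq_pow_val, h, Units.val_one]
    have := orderOf_dvd_of_pow_eq_one h2
    rw [ho] at this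
    have := Nat.le_of_dvd (by omega) this
    omega
  · exact h

theorem chi_gen (hpr : p = 4 * r + 1) (G : (ZMod p)ˣ)
    (hG : ∀ x, x ∈ Subgroup.zpowers G) : χ p (G : ZMod p) = -1 := by
  rcases quadraticChar_dichotomy (F := ZMod p) (a := (G : ZMod p)) G.ne_zero with h | h
  · exfalso
    have h1 := chi_pow hpr (G : ZMod p)
    rw [gen_pow_two_mul hpr G hG] at h1
    rw [show χ p (G : ZMod p) = 1 from h] at h1
    push_cast at h1
    have : (2 : ZMod p) = 0 := by linear_combination h1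
    exact two_ne hpr this
  · exact h

theorem chi_neg_one (hpr : p = 4 * r + 1) (G : (ZMod p)ˣ)
    (hG : ∀ x, x ∈ Subgroup.zpowers G) : χ p (-1 : ZMod p) = 1 := by
  rw [← gen_pow_two_mul hpr G hG, map_pow, chi_gen hpr G hG, pow_mul]
  simp

theorem chi_neg (hpr : p = 4 * r + 1) (G : (ZMod p)ˣ)
    (hG : ∀ x, x ∈ Subgroup.zpowers G) (x : ZMod p) : χ p (-x) = χ p x := by
  rw [neg_eq_neg_one_mul, map_mul, chi_neg_one hpr G hG, one_mul]

theorem prim_sq (hpr : p = 4 * r + 1) (G : (ZMod p)ˣ)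
    (hG : ∀ x, x ∈ Subgroup.zpowers G) : IsPrimitiveRoot ((G : ZMod p) ^ 2) (2 * r) := by
  have hr := r_pos hpr
  have h1 : IsPrimitiveRoot G (4 * r) := by
    rw [← orderOf_gen hpr G hG]
    exact IsPrimitiveRoot.orderOf G
  have h2 : IsPrimitiveRoot (G : ZMod p) (4 * r) := IsPrimitiveRoot.coe_units_iff.mpr h1
  exact h2.pow (by omega) (by ring)

/-- The character `m ↦ G ^ (2 m)`. -/
noncomputable def psi (hpr : p = 4 * r + 1) (G : (ZMod p)ˣ)
    (hG : ∀ x, x ∈ Subgroup.zpowers G) [NeZero (2 * r)] : AddChar (ZMod (2 * r)) (ZMod p) :=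
  AddChar.zmodChar (2 * r) (prim_sq hpr G hG).pow_eq_one

variable [NeZero (2 * r)]

theorem psi_nat (hpr : p = 4 * r + 1) (G : (ZMod p)ˣ)
    (hG : ∀ x, x ∈ Subgroup.zpowers G) (k : ℕ) :
    psi hpr G hG (k : ZMod (2 * r)) = (G : ZMod p) ^ (2 * k) := by
  rw [psi, AddChar.zmodChar_apply', pow_mul]

theorem psi_ne_zero (hpr : p = 4 * r + 1) (G : (ZMod p)ˣ)
    (hG : ∀ x, x ∈ Subgroup.zpowers G) (m : ZMod (2 * r)) : psi hpr G hG m ≠ 0 := by
  rw [← ZMod.natCast_zmod_val m, psi_nat]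
  exact pow_ne_zero _ G.ne_zero

theorem chi_psi (hpr : p = 4 * r + 1) (G : (ZMod p)ˣ)
    (hG : ∀ x, x ∈ Subgroup.zpowers G) (m : ZMod (2 * r)) : χ p (psi hpr G hG m) = 1 := by
  rw [← ZMod.natCast_zmod_val m, psi_nat, map_pow, chi_gen hpr G hG, pow_mul]
  simp

/-- `δ m = χ (1 - G ^ (2 m + 1))`. -/
noncomputable def dl (hpr : p = 4 * r + 1) (G : (ZMod p)ˣ)
    (hG : ∀ x, x ∈ Subgroup.zpowers G) (m : ZMod (2 * r)) : ℤ :=
  χ p (1 - (G : ZMod p) * psi hpr G hG m)

theorem dl_odd (hpr : p = 4 * r + 1) (G : (ZMod p)ˣ)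
    (hG : ∀ x, x ∈ Subgroup.zpowers G) (m : ZMod (2 * r)) :
    dl hpr G hG (-m - 1) = -dl hpr G hG m := by
  have h1 : psi hpr G hG (-m - 1) * psi hpr G hG (m + 1) = 1 := by
    rw [← AddChar.map_add_eq_mul]
    have : -m - 1 + (m + 1) = 0 := by ring
    rw [this, AddChar.map_zero_eq_one]
  have h2 : psi hpr G hG (m + 1) = psi hpr G hG m * (G : ZMod p) ^ 2 := by
    rw [AddChar.map_add_eq_mul]
    congr 1
    have := psi_nat hpr G hG 1
    simpa using this
  set x := (G : ZMod p) * psi hpr G hG m with hx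
  have hx0 : x ≠ 0 := mul_ne_zero G.ne_zero (psi_ne_zero hpr G hG m)
  have h3 : (G : ZMod p) * psi hpr G hG (-m - 1) * x = 1 := by
    rw [hx]
    rw [h2] at h1
    linear_combination h1
  have h4 : x * (1 - (G : ZMod p) * psi hpr G hG (-m - 1)) = -(1 - x) := by
    linear_combination -h3
  have h5 := congrArg (χ p) h4
  rw [map_mul, chi_neg hpr G hG] at h5
  have h6 : χ p x = -1 := by
    rw [hx, map_mul, chi_gen hpr G hG, chi_psi hpr G hG, mul_one]
  rw [h6] at h5
  simp only [dl]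
  linarith

theorem dl_pm (hpr : p = 4 * r + 1) (G : (ZMod p)ˣ)
    (hG : ∀ x, x ∈ Subgroup.zpowers G) (m : ZMod (2 * r)) :
    dl hpr G hG m = 1 ∨ dl hpr G hG m = -1 := by
  apply quadraticChar_dichotomy
  intro h
  have h6 : χ p ((G : ZMod p) * psi hpr G hG m) = -1 := by
    rw [map_mul, chi_gen hpr G hG, chi_psi hpr G hG, mul_one]
  have h7 : (G : ZMod p) * psi hpr G hG m = 1 := by linear_combination -h
  rw [h7, map_one] at h6
  norm_num at h6

/-- The even integer function used to build the matrix whose determinant is `± t_p`. -/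
theorem exists_e (hpr : p = 4 * r + 1) (G : (ZMod p)ˣ)
    (hG : ∀ x, x ∈ Subgroup.zpowers G) :
    ∃ e : ZMod (2 * r) → ℤ, (∀ m, 2 * (e m - e (m + 1)) = dl hpr G hG m - sgn r m) ∧
      (∀ m, e (-m) = e m) := by
  have hpar : ∀ m, ∃ h : ℤ, dl hpr G hG m - sgn r m = 2 * h := by
    intro m
    rcases dl_pm hpr G hG m with h1 | h1 <;> rcases sgn_sq m with h2 | h2 <;> rw [h1, h2]
    · exact ⟨0, by norm_num⟩
    · exact ⟨1, by norm_num⟩
    · exact ⟨-1, by norm_num⟩
    · exact ⟨0, by norm_num⟩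
  choose h hh using hpar
  obtain ⟨e, he1, he2⟩ := exists_even_primitive (2 * r) h (by
    intro m
    have h1 := hh (-m - 1)
    rw [dl_odd, sgn_neg_sub_one] at h1
    have h2 := hh m
    linarith)
  exact ⟨e, fun m => by rw [he1 m, hh m], he2⟩

/-- For `d` a nonresidue, `χ (G ^ (2m) + d) = - δ (m - u)` for a suitable `u`. -/
theorem exists_shift (hpr : p = 4 * r + 1) (G : (ZMod p)ˣ)
    (hG : ∀ x, x ∈ Subgroup.zpowers G) (d : ZMod p) (hd : χ p d = -1) :
    ∃ u : ZMod (2 * r), ∀ m, χ p (psi hpr G hG m + d) = -dl hpr G hG (m - u) := by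
  have hd0 : d ≠ 0 := by
    intro h
    rw [h] at hd
    simp at hd
  have h1 : χ p (-d * G) = 1 := by
    rw [map_mul, chi_neg hpr G hG, hd, chi_gen hpr G hG]; norm_num
  have h2 : (-d * (G : ZMod p)) ≠ 0 := mul_ne_zero (neg_ne_zero.mpr hd0) G.ne_zero
  obtain ⟨y, hy⟩ := (quadraticChar_one_iff_isSquare h2).mp h1
  have hy0 : y ≠ 0 := by
    rintro rfl
    rw [mul_zero] at hy
    exact h2 hy
  obtain ⟨k, hk⟩ : ∃ k : ℕ, G ^ k = Units.mk0 y hy0 := by
    have := hG (Units.mk0 y hy0)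
    rw [← mem_powers_iff_mem_zpowers] at this
    exact this
  have hk' : (G : ZMod p) ^ k = y := by
    have := congrArg Units.val hk
    simpa using this
  refine ⟨(k : ZMod (2 * r)), fun m => ?_⟩
  have h3 : -d * (G : ZMod p) = psi hpr G hG (k : ZMod (2 * r)) := by
    rw [psi_nat, hy, ← hk', ← pow_add]
    congr 1; ring
  have h4 : psi hpr G hG (k : ZMod (2 * r)) * psi hpr G hG (m - k) = psi hpr G hG m := by
    rw [← AddChar.map_add_eq_mul]; congr 1; ring
  have h5 : (G : ZMod p) * (psi hpr G hG m + d) =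
      -(psi hpr G hG (k : ZMod (2 * r)) * (1 - (G : ZMod p) * psi hpr G hG (m - k))) := by
    linear_combination -h3 - (G : ZMod p) * h4
  have h6 := congrArg (χ p) h5
  rw [map_mul, chi_neg hpr G hG, map_mul, chi_gen hpr G hG, chi_psi hpr G hG, one_mul] at h6
  simp only [dl]
  linarith

/-- Discrete logarithm of the squares `(j+1)^2`. -/
theorem exists_log (hpr : p = 4 * r + 1) (G : (ZMod p)ˣ)
    (hG : ∀ x, x ∈ Subgroup.zpowers G) :
    ∃ a : Fin (2 * r) ≃ ZMod (2 * r), ∀ j : Fin (2 * r),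
      psi hpr G hG (a j) = (((j : ℕ) + 1 : ℕ) : ZMod p) ^ 2 ∧
      sgn r (a j) = χ p (((j : ℕ) + 1 : ℕ) : ZMod p) := by
  have hne : ∀ j : Fin (2 * r), (((j : ℕ) + 1 : ℕ) : ZMod p) ≠ 0 := by
    intro j
    rw [Ne, ZMod.natCast_eq_zero_iff]
    intro h
    have := Nat.le_of_dvd (by omega) h
    have := j.isLt
    omega
  have hex : ∀ j : Fin (2 * r), ∃ k : ℕ, (G : ZMod p) ^ k = (((j : ℕ) + 1 : ℕ) : ZMod p) := by
    intro j
    have := hG (Units.mk0 _ (hne j))
    rw [← mem_powers_iff_mem_zpowers] at this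
    obtain ⟨k, hk⟩ := this
    refine ⟨k, ?_⟩
    have := congrArg Units.val hk
    simpa using this
  choose l hl using hex
  have hψ : ∀ j : Fin (2 * r), psi hpr G hG ((l j : ℕ) : ZMod (2 * r)) =
      (((j : ℕ) + 1 : ℕ) : ZMod p) ^ 2 := by
    intro j
    rw [psi_nat, ← hl j, ← pow_mul]
    congr 1; ring
  have hinj : Function.Injective (fun j : Fin (2 * r) => ((l j : ℕ) : ZMod (2 * r))) := by
    intro i j hij
    simp only at hij
    have h1 := hψ i
    rw [hij, hψ j] at h1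
    rcases sq_eq_sq_iff_eq_or_eq_neg.mp h1 with h2 | h2
    · rw [ZMod.natCast_eq_natCast_iff, Nat.ModEq, Nat.mod_eq_of_lt (by have := j.isLt; omega),
        Nat.mod_eq_of_lt (by have := i.isLt; omega)] at h2
      ext; omega
    · exfalso
      have h3 : ((((j : ℕ) + 1) + ((i : ℕ) + 1) : ℕ) : ZMod p) = 0 := by
        push_cast at h2 ⊢
        rw [h2]; ring
      rw [ZMod.natCast_eq_zero_iff] at h3
      have := Nat.le_of_dvd (by omega) h3
      have := i.isLt
      have := j.isLt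
      omega
  have hbij : Function.Bijective (fun j : Fin (2 * r) => ((l j : ℕ) : ZMod (2 * r))) := by
    rw [Fintype.bijective_iff_injective_and_card]
    exact ⟨hinj, by simp [ZMod.card]⟩
  refine ⟨Equiv.ofBijective _ hbij, fun j => ⟨hψ j, ?_⟩⟩
  rw [Equiv.ofBijective_apply]
  rw [← hl j, map_pow, chi_gen hpr G hG]
  have h3 : ((l j : ℕ) : ZMod (2 * r)) = (l j) • (1 : ZMod (2 * r)) := by
    rw [nsmul_eq_mul, mul_one]
  rw [h3, AddChar.map_nsmul_eq_pow, sgn_one]

end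

end Pool.Agent.Lib.MP_b23923_nt
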