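import Mathlib
import Pool.Agent.Lib.MP_b23923_nt.Nt

set_option autoImplicit false

namespace Pool.Agent.Lib.MP_b23923_nt

open Finset

section

variable {p r : ℕ} [Fact p.Prime]

/-- The matrix `χ (j^2 + d k^2)`, `1 ≤ j, k ≤ N`. -/
noncomputable def Cm (p : ℕ) [Fact p.Prime] (d : ZMod p) (N : ℕ) : Matrix (Fin N) (Fin N) ℤ :=
  Matrix.of fun j k => χ p ((((j : ℕ) + 1 : ℕ) : ZMod p) ^ 2 + d * (((k : ℕ) + 1 : ℕ) : ZMod p) ^ 2)

theorem Cm_eq (hpr : p = 4 * r + 1) (G : (ZMod p)ˣ)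
    (hG : ∀ x, x ∈ Subgroup.zpowers G) [NeZero (2 * r)]
    (a : Fin (2 * r) ≃ ZMod (2 * r))
    (ha : ∀ j : Fin (2 * r),
      psi hpr G hG (a j) = (((j : ℕ) + 1 : ℕ) : ZMod p) ^ 2 ∧
      sgn r (a j) = χ p (((j : ℕ) + 1 : ℕ) : ZMod p))
    (d : ZMod p) (u : ZMod (2 * r)) (hu : ∀ m, χ p (psi hpr G hG m + d) = -dl hpr G hG (m - u))
    (j k : Fin (2 * r)) : Cm p d (2 * r) j k = -dl hpr G hG (a j - a k - u) := by
  rw [← hu]
  simp only [Cm, Matrix.of_apply]
  rw [← (ha j).1, ← (ha k).1]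
  have h1 : psi hpr G hG (a k) * psi hpr G hG (a j - a k) = psi hpr G hG (a j) := by
    rw [← AddChar.map_add_eq_mul]; congr 1; ring
  have h2 : psi hpr G hG (a j) + d * psi hpr G hG (a k) =
      psi hpr G hG (a k) * (psi hpr G hG (a j - a k) + d) := by
    linear_combination -h1
  rw [h2, map_mul, chi_psi, one_mul]

theorem sum_dl (hpr : p = 4 * r + 1) (G : (ZMod p)ˣ)
    (hG : ∀ x, x ∈ Subgroup.zpowers G) [NeZero (2 * r)] :
    ∑ m : ZMod (2 * r), dl hpr G hG m = 0 := by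
  have h1 : ∑ m : ZMod (2 * r), dl hpr G hG (-m - 1) = ∑ m : ZMod (2 * r), dl hpr G hG m := by
    refine Fintype.sum_equiv ((Equiv.neg (ZMod (2 * r))).trans (Equiv.subRight 1)) _ _
      fun x => ?_
    simp
  have h2 : ∑ m : ZMod (2 * r), dl hpr G hG (-m - 1) = -∑ m : ZMod (2 * r), dl hpr G hG m := by
    rw [← Finset.sum_neg_distrib]
    exact Finset.sum_congr rfl fun m _ => dl_odd hpr G hG m
  omega

theorem Cm_row (hpr : p = 4 * r + 1) (d : ZMod p) (hd : χ p d = -1) (j : Fin (2 * r)) :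
    ∑ k, Cm p d (2 * r) j k = 0 := by
  have hr := r_pos hpr
  haveI : NeZero (2 * r) := ⟨by omega⟩
  obtain ⟨G, hG⟩ := IsCyclic.exists_generator (α := (ZMod p)ˣ)
  obtain ⟨a, ha⟩ := exists_log hpr G hG
  obtain ⟨u, hu⟩ := exists_shift hpr G hG d hd
  rw [Finset.sum_congr rfl fun k _ => Cm_eq hpr G hG a ha d u hu j k, Finset.sum_neg_distrib]
  have h1 : ∑ k : Fin (2 * r), dl hpr G hG (a j - a k - u) =
      ∑ m : ZMod (2 * r), dl hpr G hG m := by
    refine Fintype.sum_equiv (a.trans ((Equiv.subLeft (a j)).trans (Equiv.subRight u))) _ _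
      fun x => ?_
    simp
  rw [h1, sum_dl, neg_zero]

theorem Cm_col (hpr : p = 4 * r + 1) (d : ZMod p) (hd : χ p d = -1) (k : Fin (2 * r)) :
    ∑ j, Cm p d (2 * r) j k = 0 := by
  have hr := r_pos hpr
  haveI : NeZero (2 * r) := ⟨by omega⟩
  obtain ⟨G, hG⟩ := IsCyclic.exists_generator (α := (ZMod p)ˣ)
  obtain ⟨a, ha⟩ := exists_log hpr G hG
  obtain ⟨u, hu⟩ := exists_shift hpr G hG d hd
  rw [Finset.sum_congr rfl fun j _ => Cm_eq hpr G hG a ha d u hu j k, Finset.sum_neg_distrib]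
  have h1 : ∑ j : Fin (2 * r), dl hpr G hG (a j - a k - u) =
      ∑ m : ZMod (2 * r), dl hpr G hG m := by
    refine Fintype.sum_equiv (a.trans ((Equiv.subRight (a k)).trans (Equiv.subRight u))) _ _
      fun x => ?_
    simp
  rw [h1, sum_dl, neg_zero]

/-- The key integral identity. -/
theorem det_Cm_add_one (hpr : p = 4 * r + 1) (G : (ZMod p)ˣ)
    (hG : ∀ x, x ∈ Subgroup.zpowers G) [NeZero (2 * r)] (e : ZMod (2 * r) → ℤ)
    (he : ∀ m, 2 * (e m - e (m + 1)) = dl hpr G hG m - sgn r m) (heven : ∀ m, e (-m) = e m)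
    (d : ZMod p) (hd : χ p d = -1) :
    (Matrix.of fun i j => Cm p d (2 * r) i j + 1).det =
      (2 * r) * (∑ j : Fin (2 * r), χ p ((((j : ℕ) + 1 : ℕ) : ZMod p) *
        ((((j : ℕ) + 1 : ℕ) : ZMod p) ^ 2 + d))) *
        (4 ^ (r - 1) * r * (oddMat r e).det ^ 2) := by
  have hr := r_pos hpr
  obtain ⟨a, ha⟩ := exists_log hpr G hG
  obtain ⟨u, hu⟩ := exists_shift hpr G hG d hd
  have hB : ∑ j : Fin (2 * r), χ p ((((j : ℕ) + 1 : ℕ) : ZMod p) *
        ((((j : ℕ) + 1 : ℕ) : ZMod p) ^ 2 + d)) =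
      ∑ m : ZMod (2 * r), (-dl hpr G hG (m - u)) * sgn r m := by
    refine Fintype.sum_equiv a _ _ fun j => ?_
    rw [map_mul, ← (ha j).1, hu, (ha j).2]
    ring
  have hdet : (Matrix.of fun i j => Cm p d (2 * r) i j + 1).det =
      (Matrix.circulant fun m : ZMod (2 * r) => (1 - dl hpr G hG (m - u))).det := by
    rw [← Matrix.det_submatrix_equiv_self a]
    congr 1
    ext i j
    rw [Matrix.of_apply, Cm_eq hpr G hG a ha d u hu i j, Matrix.submatrix_apply,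
      Matrix.circulant_apply]
    ring
  rw [hdet, hB]
  -- pass to the complex numbers
  have hN : 2 * r ≠ 0 := NeZero.ne _
  set ζ : ℂ := Complex.exp (2 * Real.pi * Complex.I / ((2 * r : ℕ) : ℂ)) with hζd
  have hζ : IsPrimitiveRoot ζ (2 * r) := Complex.isPrimitiveRoot_exp (2 * r) hN
  have hv := det_circ_value (K := ℂ) hr ζ hζ two_ne_zero (by exact_mod_cast hN)
    (dl hpr G hG) e (dl_odd hpr G hG) he heven u
  have hcast : ((Matrix.circulant fun m : ZMod (2 * r) => (1 - dl hpr G hG (m - u))).det : ℂ) =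
      (Matrix.circulant fun m : ZMod (2 * r) => ((1 - dl hpr G hG (m - u) : ℤ) : ℂ)).det := by
    have h1 : ((Matrix.circulant fun m : ZMod (2 * r) => (1 - dl hpr G hG (m - u))).det : ℂ) =
        (Int.castRingHom ℂ)
          (Matrix.circulant fun m : ZMod (2 * r) => (1 - dl hpr G hG (m - u))).det := rfl
    rw [h1, RingHom.map_det]
    congr 1
  have : ((Matrix.circulant fun m : ZMod (2 * r) => (1 - dl hpr G hG (m - u))).det : ℂ) =
      ((2 * r) * (∑ m : ZMod (2 * r), (-dl hpr G hG (m - u)) * sgn r m) *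
        (4 ^ (r - 1) * r * (oddMat r e).det ^ 2) : ℤ) := by
    rw [hcast, hv]
    push_cast
    ring
  exact_mod_cast this

end

end Pool.Agent.Lib.MP_b23923_nt
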