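import Mathlib
import Pool.Agent.Lib.MP_b23923_nt.Nt

set_option autoImplicit false

namespace Pool.Agent.Lib.MP_b23923_nt

open Finset

section

variable {p r : ℕ} [Fact p.Prime]

/-- Sums over units as sums over powers of a generator. -/
theorem sum_units (hpr : p = 4 * r + 1) (G : (ZMod p)ˣ)
    (hG : ∀ x, x ∈ Subgroup.zpowers G) (f : (ZMod p)ˣ → ZMod p) :
    ∑ x : (ZMod p)ˣ, f x = ∑ i ∈ range (4 * r), f (G ^ i) := by
  classical
  have ho := orderOf_gen hpr G hG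
  have h1 : (univ : Finset (ZMod p)ˣ) = Finset.image (fun i => G ^ i) (range (4 * r)) := by
    rw [← ho, IsCyclic.image_range_orderOf hG]
  rw [h1, Finset.sum_image]
  intro i hi j hj hij
  simp only [coe_range, Set.mem_Iio] at hi hj
  rw [← ho] at hi hj
  exact pow_injOn_Iio_orderOf hi hj hij

theorem power_sum_aux (hpr : p = 4 * r + 1) (j : ℕ) :
    ∑ x : (ZMod p)ˣ, (1 - (x : ZMod p)) ^ (2 * r) * (x : ZMod p) ^ j =
      ∑ k ∈ range (2 * r + 1), (-1) ^ k * ((2 * r).choose k : ZMod p) *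
        (if 4 * r ∣ j + k then -1 else 0) := by
  have h1 : ∀ x : (ZMod p)ˣ, (1 - (x : ZMod p)) ^ (2 * r) * (x : ZMod p) ^ j =
      ∑ k ∈ range (2 * r + 1), (-1) ^ k * ((2 * r).choose k : ZMod p) * (x : ZMod p) ^ (j + k) := by
    intro x
    have h2 : (1 - (x : ZMod p)) = -(x : ZMod p) + 1 := by ring
    rw [h2, add_pow, Finset.sum_mul]
    refine Finset.sum_congr rfl fun k _ => ?_
    rw [one_pow, neg_pow, pow_add]
    ring
  rw [Finset.sum_congr rfl fun x _ => h1 x, Finset.sum_comm]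
  refine Finset.sum_congr rfl fun k _ => ?_
  rw [← Finset.mul_sum]
  congr 1
  have h3 := FiniteField.sum_pow_units (ZMod p) (j + k)
  rw [ZMod.card] at h3
  have h4 : p - 1 = 4 * r := by omega
  rw [h4] at h3
  exact h3

variable [NeZero (2 * r)]

theorem power_sum (hpr : p = 4 * r + 1) (G : (ZMod p)ˣ)
    (hG : ∀ x, x ∈ Subgroup.zpowers G) (B : ℕ) (hB : 0 < B) (hB2 : B < 2 * r) :
    2 * ∑ m : ZMod (2 * r), (dl hpr G hG m : ZMod p) *
      ((G : ZMod p) ^ B * psi hpr G hG (m * (B : ZMod (2 * r)))) =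
      (-1) ^ B * ((2 * r).choose B : ZMod p) := by
  -- first evaluation
  have e1 : ∑ x : (ZMod p)ˣ, (1 - ((χ p (x : ZMod p) : ℤ) : ZMod p)) *
      ((χ p (1 - (x : ZMod p)) : ℤ) : ZMod p) * (x : ZMod p) ^ B =
      (-1) ^ B * ((2 * r).choose B : ZMod p) := by
    have h1 : ∀ x : (ZMod p)ˣ, (1 - ((χ p (x : ZMod p) : ℤ) : ZMod p)) *
        ((χ p (1 - (x : ZMod p)) : ℤ) : ZMod p) * (x : ZMod p) ^ B =
        (1 - (x : ZMod p)) ^ (2 * r) * (x : ZMod p) ^ B -
        (1 - (x : ZMod p)) ^ (2 * r) * (x : ZMod p) ^ (B + 2 * r) := by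
      intro x
      rw [chi_pow hpr, chi_pow hpr, pow_add]
      ring
    rw [Finset.sum_congr rfl fun x _ => h1 x, Finset.sum_sub_distrib, power_sum_aux hpr,
      power_sum_aux hpr]
    have h2 : ∑ k ∈ range (2 * r + 1), (-1) ^ k * ((2 * r).choose k : ZMod p) *
        (if 4 * r ∣ B + k then (-1 : ZMod p) else 0) = 0 := by
      refine Finset.sum_eq_zero fun k hk => ?_
      have hk' := mem_range.mp hk
      rw [if_neg, mul_zero]
      intro hd
      have := Nat.le_of_dvd (by omega) hd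
      omega
    have h3 : ∑ k ∈ range (2 * r + 1), (-1) ^ k * ((2 * r).choose k : ZMod p) *
        (if 4 * r ∣ B + 2 * r + k then (-1 : ZMod p) else 0) =
        (-1) ^ (2 * r - B) * ((2 * r).choose (2 * r - B) : ZMod p) * (-1) := by
      rw [Finset.sum_eq_single (2 * r - B)]
      · rw [if_pos]
        have : B + 2 * r + (2 * r - B) = 4 * r := by omega
        rw [this]
      · intro k hk hne
        have hk' := mem_range.mp hk
        rw [if_neg, mul_zero]
        rintro ⟨c, hc⟩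
        have hc1 : c = 1 := by
          have hr : 0 < r := r_pos hpr
          have h5 : 4 * r * c < 4 * r * 2 := by omega
          have h6 : 0 < 4 * r * c := by omega
          have h7 : c < 2 := Nat.lt_of_mul_lt_mul_left h5
          have h8 : 0 < c := Nat.pos_of_mul_pos_left h6 
          omega
        subst hc1
        omega
      · intro h
        exfalso
        apply h
        rw [mem_range]; omega
    rw [h2, h3, Nat.choose_symm (by omega)]
    have h4 : (-1 : ZMod p) ^ (2 * r - B) = (-1) ^ B := by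
      have h5 : (-1 : ZMod p) ^ (2 * r - B) * (-1) ^ B = 1 := by
        rw [← pow_add, Nat.sub_add_cancel (by omega), pow_mul]; simp
      have h6 : (-1 : ZMod p) ^ B * (-1) ^ B = 1 := by
        rw [← mul_pow]; simp
      have h7 : (-1 : ZMod p) ^ B ≠ 0 := pow_ne_zero _ (by simp)
      exact mul_right_cancel₀ h7 (h5.trans h6.symm)
    rw [h4]; ring
  rw [← e1, sum_units hpr G hG]
  -- split even and odd exponents
  have hsplit : ∀ f : ℕ → ZMod p, ∀ n : ℕ, ∑ i ∈ range (2 * n), f i =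
      ∑ i ∈ range n, (f (2 * i) + f (2 * i + 1)) := by
    intro f n
    induction n with
    | zero => simp
    | succ n ih =>
      rw [show 2 * (n + 1) = 2 * n + 1 + 1 by ring, Finset.sum_range_succ, Finset.sum_range_succ,
        ih, Finset.sum_range_succ]
      ring
  rw [show 4 * r = 2 * (2 * r) by ring, hsplit, Finset.mul_sum, sum_zmod_eq_range]
  refine Finset.sum_congr rfl fun i _ => ?_
  have hev : χ p ((G : ZMod p) ^ (2 * i)) = 1 := by
    rw [map_pow, chi_gen hpr G hG, pow_mul]; simp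
  have hod : χ p ((G : ZMod p) ^ (2 * i + 1)) = -1 := by
    rw [pow_succ, map_mul, hev, chi_gen hpr G hG, one_mul]
  rw [Units.val_pow_eq_pow_val, Units.val_pow_eq_pow_val, hev, hod]
  have hdl : dl hpr G hG (i : ZMod (2 * r)) = χ p (1 - (G : ZMod p) ^ (2 * i + 1)) := by
    simp only [dl]
    rw [psi_nat, pow_succ, mul_comm]
  have hpsi : psi hpr G hG ((i : ZMod (2 * r)) * (B : ZMod (2 * r))) =
      (G : ZMod p) ^ (2 * (i * B)) := by
    rw [← Nat.cast_mul, psi_nat]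
  rw [hdl, hpsi]
  push_cast
  ring

/-- Relation for the eigenvalues modulo `p`. -/
theorem eigen_mod (hpr : p = 4 * r + 1) (G : (ZMod p)ˣ)
    (hG : ∀ x, x ∈ Subgroup.zpowers G) (e : ZMod (2 * r) → ℤ)
    (he : ∀ m, 2 * (e m - e (m + 1)) = dl hpr G hG m - sgn r m) (b : Fin (r - 1)) :
    4 * ((G : ZMod p) ^ ((b : ℕ) + 1) - ((G : ZMod p) ^ ((b : ℕ) + 1))⁻¹) *
      (∑ m : ZMod (2 * r), (e m : ZMod p) * psi hpr G hG (m * (((b : ℕ) + 1 : ℕ) : ZMod (2 * r)))) =
      (-1) ^ ((b : ℕ) + 1) * ((2 * r).choose ((b : ℕ) + 1) : ZMod p) := by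
  have hb := b.isLt
  have hr := r_pos hpr
  have hψ : (psi hpr G hG).IsPrimitive :=
    AddChar.zmodChar_primitive_of_primitive_root (2 * r) (prim_sq hpr G hG)
  have h1 := sum_delta hr (psi hpr G hG) hψ (dl hpr G hG) e he b
  have h2 := power_sum hpr G hG ((b : ℕ) + 1) (by omega) (by omega)
  rw [← h2]
  have h3 : ∑ m : ZMod (2 * r), (dl hpr G hG m : ZMod p) *
      ((G : ZMod p) ^ ((b : ℕ) + 1) * psi hpr G hG (m * (((b : ℕ) + 1 : ℕ) : ZMod (2 * r)))) =
      (G : ZMod p) ^ ((b : ℕ) + 1) * ∑ m : ZMod (2 * r), (dl hpr G hG m : ZMod p) *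
        psi hpr G hG (m * (((b : ℕ) + 1 : ℕ) : ZMod (2 * r))) := by
    rw [Finset.mul_sum]
    refine Finset.sum_congr rfl fun m _ => ?_
    ring
  rw [h3, h1]
  have hx : (G : ZMod p) ^ ((b : ℕ) + 1) ≠ 0 := pow_ne_zero _ G.ne_zero
  have h4 : psi hpr G hG (-(((b : ℕ) + 1 : ℕ) : ZMod (2 * r))) =
      ((G : ZMod p) ^ ((b : ℕ) + 1))⁻¹ * ((G : ZMod p) ^ ((b : ℕ) + 1))⁻¹ := by
    rw [AddChar.map_neg_eq_inv, psi_nat, ← mul_inv, ← pow_add]
    congr 2; ring
  rw [h4]
  set x := (G : ZMod p) ^ ((b : ℕ) + 1) with hxd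
  have h5 : x * x⁻¹ = 1 := mul_inv_cancel₀ hx
  linear_combination (4 * x⁻¹ * (∑ m : ZMod (2 * r), (e m : ZMod p) *
    psi hpr G hG (m * (((b : ℕ) + 1 : ℕ) : ZMod (2 * r))))) * h5

theorem chi_two (hpr : p = 4 * r + 1) (G : (ZMod p)ˣ)
    (hG : ∀ x, x ∈ Subgroup.zpowers G) : χ p (2 : ZMod p) = (-1) ^ r := by
  set ι : ZMod p := (G : ZMod p) ^ r with hι
  have hι2 : ι ^ 2 = -1 := by
    rw [hι, ← pow_mul, mul_comm]; exact gen_pow_two_mul hpr G hG
  have hι0 : ι ≠ 0 := pow_ne_zero _ G.ne_zero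
  have h2 := two_ne hpr
  have h1 : (1 + ι) ^ 2 = 2 * ι := by linear_combination hι2
  have h3 : (1 + ι) ≠ 0 := by
    intro h
    rw [h] at h1
    have : (2 : ZMod p) * ι = 0 := by rw [← h1]; ring
    exact mul_ne_zero h2 hι0 this
  have h4 : χ p ((1 + ι) ^ 2) = 1 := quadraticChar_sq_one' h3
  rw [h1, map_mul] at h4
  have h5 : χ p ι = (-1) ^ r := by rw [hι, map_pow, chi_gen hpr G hG]
  rw [h5] at h4
  rcases neg_one_pow_eq_or ℤ r with h6 | h6 <;> rw [h6] at h4 ⊢ <;> linarith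

theorem chi_of_sq (hpr : p = 4 * r + 1) (G : (ZMod p)ˣ)
    (hG : ∀ x, x ∈ Subgroup.zpowers G) (x y : ZMod p) (h : x ^ 2 = y ^ 2) : χ p x = χ p y := by
  rcases sq_eq_sq_iff_eq_or_eq_neg.mp h with h1 | h1
  · rw [h1]
  · rw [h1, chi_neg hpr G hG]

theorem chi_fact (hpr : p = 4 * r + 1) (G : (ZMod p)ˣ)
    (hG : ∀ x, x ∈ Subgroup.zpowers G) :
    χ p (((2 * r).factorial : ℕ) : ZMod p) = (-1) ^ r := by
  obtain ⟨a, ha⟩ := exists_log hpr G hG
  have h1 : ((((2 * r).factorial : ℕ) : ZMod p)) ^ 2 = -1 := by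
    have h2 : (((2 * r).factorial : ℕ) : ZMod p) =
        ∏ j : Fin (2 * r), (((j : ℕ) + 1 : ℕ) : ZMod p) := by
      rw [Fin.prod_univ_eq_prod_range (fun i => ((i + 1 : ℕ) : ZMod p)) (2 * r),
        ← Nat.cast_prod, Finset.prod_range_add_one_eq_factorial]
    rw [h2, ← Finset.prod_pow]
    have h3 : ∏ j : Fin (2 * r), (((j : ℕ) + 1 : ℕ) : ZMod p) ^ 2 =
        ∏ m : ZMod (2 * r), psi hpr G hG m :=
      Fintype.prod_equiv a _ _ fun j => ((ha j).1).symm
    rw [h3, prod_zmod_eq_range]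
    rw [Finset.prod_congr rfl fun i _ => psi_nat hpr G hG i, Finset.prod_pow_eq_pow_sum,
      ← Finset.mul_sum]
    have h4 : 2 * ∑ i ∈ range (2 * r), i = (2 * r) * (2 * r - 1) := by
      rw [mul_comm, Finset.sum_range_id_mul_two]
    rw [h4, pow_mul, gen_pow_two_mul hpr G hG]
    have hr := r_pos hpr
    have h5 : 2 * r - 1 = 2 * (r - 1) + 1 := by omega
    rw [h5, pow_succ, pow_mul]; simp
  have hι2 : ((G : ZMod p) ^ r) ^ 2 = -1 := by
    rw [← pow_mul, mul_comm]; exact gen_pow_two_mul hpr G hG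
  rw [chi_of_sq hpr G hG _ ((G : ZMod p) ^ r) (h1.trans hι2.symm), map_pow, chi_gen hpr G hG]

theorem cast_ne (hpr : p = 4 * r + 1) (n : ℕ) (h0 : 0 < n) (hn : n ≤ 4 * r) :
    (n : ZMod p) ≠ 0 := by
  rw [Ne, ZMod.natCast_eq_zero_iff]
  intro h
  have := Nat.le_of_dvd h0 h
  omega

theorem fact_ne (hpr : p = 4 * r + 1) (n : ℕ) (hn : n ≤ 4 * r) :
    ((n.factorial : ℕ) : ZMod p) ≠ 0 := by
  rw [Ne, ZMod.natCast_eq_zero_iff, (Fact.out : p.Prime).dvd_factorial]
  omega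

/-- The product of the quadratic characters of the binomial coefficients. -/
theorem chi_choose_prod (hpr : p = 4 * r + 1) (G : (ZMod p)ˣ)
    (hG : ∀ x, x ∈ Subgroup.zpowers G) :
    ∏ b : Fin (r - 1), χ p (((2 * r).choose ((b : ℕ) + 1) : ℕ) : ZMod p) = 1 := by
  have hr := r_pos hpr
  set f : ℕ → ℤ := fun j => χ p ((j.factorial : ℕ) : ZMod p) with hf
  set c : ℕ → ℤ := fun j => χ p ((j : ℕ) : ZMod p) with hc
  have hfsq : ∀ j, j ≤ 4 * r → f j * f j = 1 := by
    intro j hj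
    have := quadraticChar_sq_one (fact_ne hpr j hj)
    rw [pow_two] at this
    exact this
  have hfs : ∀ j, f (j + 1) = c (j + 1) * f j := by
    intro j
    simp only [hf, hc, Nat.factorial_succ, Nat.cast_mul, map_mul]
  have hcm : ∀ i j, c (i * j) = c i * c j := by
    intro i j
    simp only [hc, Nat.cast_mul, map_mul]
  have claim1 : ∀ s, 2 * s + 1 ≤ 4 * r →
      ∏ i ∈ range (2 * s + 1), f (i + 1) = ∏ i ∈ range (s + 1), c (2 * i + 1) := by
    intro s
    induction s with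
    | zero => intro _; simp [hf, hc]
    | succ s ih =>
      intro hs
      rw [show 2 * (s + 1) + 1 = 2 * s + 1 + 1 + 1 by ring, Finset.prod_range_succ,
        Finset.prod_range_succ, ih (by omega), Finset.prod_range_succ _ (s + 1)]
      rw [hfs (2 * s + 1 + 1)]
      have h1 := hfsq (2 * s + 1 + 1) (by omega)
      have h2 : 2 * s + 1 + 1 + 1 = 2 * (s + 1) + 1 := by ring
      rw [h2]
      calc _ = (∏ i ∈ range (s + 1), c (2 * i + 1)) * c (2 * (s + 1) + 1) *
            (f (2 * s + 1 + 1) * f (2 * s + 1 + 1)) := by ring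
        _ = _ := by rw [h1, mul_one]
  have claim2 : ∀ s, f (2 * s) = c 2 ^ s * f s * ∏ i ∈ range s, c (2 * i + 1) := by
    intro s
    induction s with
    | zero => simp
    | succ s ih =>
      rw [show 2 * (s + 1) = 2 * s + 1 + 1 by ring, hfs, hfs, ih, Finset.prod_range_succ, hfs s,
        show 2 * s + 1 + 1 = 2 * (s + 1) by ring, hcm]
      ring
  have claim3 : ∀ B, B ≤ 2 * r → c ((2 * r).choose B) = f (2 * r) * (f B * f (2 * r - B)) := by
    intro B hB
    have h1 : c ((2 * r).choose B) * f B * f (2 * r - B) = f (2 * r) := by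
      simp only [hf, hc]
      rw [← map_mul, ← map_mul, ← Nat.cast_mul, ← Nat.cast_mul,
        Nat.choose_mul_factorial_mul_factorial hB]
    have h2 := hfsq B (by omega)
    have h3 := hfsq (2 * r - B) (by omega)
    rw [← h1]
    calc c ((2 * r).choose B) = c ((2 * r).choose B) * 1 * 1 := by ring
      _ = c ((2 * r).choose B) * (f B * f B) * (f (2 * r - B) * f (2 * r - B)) := by rw [h2, h3]
      _ = _ := by ring
  have hX : ∏ i ∈ range (2 * (r - 1) + 1), f (i + 1) =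
      (∏ i ∈ range (r - 1), f (i + 1)) * f r * ∏ i ∈ range (r - 1), f (2 * r - (i + 1)) := by
    rw [show 2 * (r - 1) + 1 = (r - 1) + 1 + (r - 1) by ring, Finset.prod_range_add,
      Finset.prod_range_succ, show r - 1 + 1 = r by omega]
    congr 1
    rw [← Finset.prod_range_reflect]
    refine Finset.prod_congr rfl fun i hi => ?_
    have hi' := mem_range.mp hi
    congr 1
    omega
  have hfr := hfsq r (by omega)
  have h2r : f (2 * r) = (-1) ^ r := chi_fact hpr G hG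
  have hc2 : c 2 = (-1) ^ r := by
    have := chi_two hpr G hG
    simpa [hc] using this
  have hmain : ∏ b : Fin (r - 1), χ p (((2 * r).choose ((b : ℕ) + 1) : ℕ) : ZMod p) =
      f (2 * r) ^ (r - 1) * ((∏ i ∈ range (r - 1), f (i + 1)) *
        ∏ i ∈ range (r - 1), f (2 * r - (i + 1))) := by
    rw [Fin.prod_univ_eq_prod_range
      (fun i => χ p (((2 * r).choose (i + 1) : ℕ) : ZMod p)) (r - 1)]
    rw [← Finset.prod_mul_distrib]
    have h1 : f (2 * r) ^ (r - 1) = ∏ _i ∈ range (r - 1), f (2 * r) := by simp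
    rw [h1, ← Finset.prod_mul_distrib]
    refine Finset.prod_congr rfl fun i hi => ?_
    have hi' := mem_range.mp hi
    exact claim3 (i + 1) (by omega)
  have hX2 := claim1 (r - 1) (by omega)
  rw [hX, show r - 1 + 1 = r by omega] at hX2
  have h4 := claim2 r
  rw [← hX2, h2r, hc2] at h4
  rw [hmain, h2r]
  set Y := (∏ i ∈ range (r - 1), f (i + 1)) * ∏ i ∈ range (r - 1), f (2 * r - (i + 1)) with hY
  -- h4 : (-1)^r = ((-1)^r)^r * f r * (.. * f r * ..)
  have h5 : (-1 : ℤ) ^ r = ((-1) ^ r) ^ r * Y := by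
    refine h4.trans ?_
    have h6 : ((-1) ^ r) ^ r * (f r * f r) * Y = ((-1) ^ r) ^ r * Y := by rw [hfr, mul_one]
    rw [← h6, hY]
    ring
  have hpar : ((-1 : ℤ) ^ r) ^ r = (-1) ^ r := by
    rcases Nat.even_or_odd r with h | h
    · rw [h.neg_one_pow, one_pow]
    · rw [h.neg_one_pow, h.neg_one_pow]
  rw [hpar] at h5
  have hY1 : Y = 1 := by
    rcases neg_one_pow_eq_or ℤ r with h6 | h6 <;> rw [h6] at h5 <;> linarith
  rw [hY1, mul_one]
  rcases Nat.even_or_odd r with h | h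
  · rw [h.neg_one_pow, one_pow]
  · have h7 : Even (r - 1) := by
      obtain ⟨k, hk⟩ := h
      exact ⟨k, by omega⟩
    rw [h.neg_one_pow, h7.neg_one_pow]

theorem chi_P (hpr : p = 4 * r + 1) (G : (ZMod p)ˣ)
    (hG : ∀ x, x ∈ Subgroup.zpowers G) :
    χ p (∏ b : Fin (r - 1), ((G : ZMod p) ^ ((b : ℕ) + 1) -
      ((G : ZMod p) ^ ((b : ℕ) + 1))⁻¹)) = 1 := by
  have hr := r_pos hpr
  have h1 := prod_one_sub hr ((G : ZMod p) ^ 2) (prim_sq hpr G hG) (two_ne hpr)
  set P : ZMod p := ∏ b : Fin (r - 1), ((G : ZMod p) ^ ((b : ℕ) + 1) -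
      ((G : ZMod p) ^ ((b : ℕ) + 1))⁻¹) with hP
  have h2 : ∏ b : Fin (r - 1), ((1 - AddChar.zmodChar (2 * r) (prim_sq hpr G hG).pow_eq_one
      (((b : ℕ) + 1 : ℕ))) * (1 - AddChar.zmodChar (2 * r) (prim_sq hpr G hG).pow_eq_one
      (-(((b : ℕ) + 1 : ℕ) : ZMod (2 * r))))) = (-1) ^ (r - 1) * P ^ 2 := by
    have h3 : ((-1 : ZMod p)) ^ (r - 1) = ∏ _b : Fin (r - 1), (-1 : ZMod p) := by simp
    rw [h3, hP, ← Finset.prod_pow, ← Finset.prod_mul_distrib]
    refine Finset.prod_congr rfl fun b _ => ?_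
    have hx : (G : ZMod p) ^ ((b : ℕ) + 1) ≠ 0 := pow_ne_zero _ G.ne_zero
    have e1 : psi hpr G hG ((((b : ℕ) + 1 : ℕ) : ZMod (2 * r))) =
        (G : ZMod p) ^ ((b : ℕ) + 1) * (G : ZMod p) ^ ((b : ℕ) + 1) := by
      rw [psi_nat, ← pow_add]; congr 1; ring
    have e2 : psi hpr G hG (-(((b : ℕ) + 1 : ℕ) : ZMod (2 * r))) =
        ((G : ZMod p) ^ ((b : ℕ) + 1))⁻¹ * ((G : ZMod p) ^ ((b : ℕ) + 1))⁻¹ := by
      rw [AddChar.map_neg_eq_inv, e1, mul_inv]
    change (1 - psi hpr G hG ((((b : ℕ) + 1 : ℕ) : ZMod (2 * r)))) *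
      (1 - psi hpr G hG (-(((b : ℕ) + 1 : ℕ) : ZMod (2 * r)))) = _
    rw [e1, e2]
    set x := (G : ZMod p) ^ ((b : ℕ) + 1) with hxd
    have h5 : x * x⁻¹ = 1 := mul_inv_cancel₀ hx
    linear_combination (x * x⁻¹ - 1) * h5
  rw [h2] at h1
  have h4r : (4 : ZMod p) * (r : ZMod p) = -1 := by
    have h3 : ((4 * r + 1 : ℕ) : ZMod p) = 0 := by rw [← hpr]; exact ZMod.natCast_self p
    push_cast at h3
    linear_combination h3
  have hι2 : ((G : ZMod p) ^ r) ^ 2 = -1 := by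
    rw [← pow_mul, mul_comm]; exact gen_pow_two_mul hpr G hG
  have h5 : (2 * P) ^ 2 = (((G : ZMod p) ^ r) ^ r) ^ 2 := by
    have h6 : (((G : ZMod p) ^ r) ^ r) ^ 2 = (-1) ^ r := by
      rw [← pow_mul, mul_comm r 2, pow_mul, hι2]
    rw [h6]
    have h7 : ((-1 : ZMod p) ^ (r - 1)) * (-1) ^ (r - 1) = 1 := by rw [← mul_pow]; simp
    have h8 : (-1 : ZMod p) ^ r = (-1) ^ (r - 1) * (-1) := by
      rw [← pow_succ, show r - 1 + 1 = r by omega]
    rw [h8]
    linear_combination (4 * (-1) ^ (r - 1)) * h1 + ((-1) ^ (r - 1)) * h4r - 4 * P ^ 2 * h7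
  have h9 := chi_of_sq hpr G hG _ _ h5
  rw [map_mul, chi_two hpr G hG, map_pow, map_pow, chi_gen hpr G hG] at h9
  have hpar : ((-1 : ℤ) ^ r) ^ r = (-1) ^ r := by
    rcases Nat.even_or_odd r with h | h
    · rw [h.neg_one_pow, one_pow]
    · rw [h.neg_one_pow, h.neg_one_pow]
  rw [hpar] at h9
  rcases neg_one_pow_eq_or ℤ r with h6 | h6 <;> rw [h6] at h9 <;> linarith

/-- The determinant of the integer matrix is a quadratic residue modulo `p`. -/
theorem chi_det (hpr : p = 4 * r + 1) (G : (ZMod p)ˣ)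
    (hG : ∀ x, x ∈ Subgroup.zpowers G) (e : ZMod (2 * r) → ℤ)
    (he : ∀ m, 2 * (e m - e (m + 1)) = dl hpr G hG m - sgn r m) (heven : ∀ m, e (-m) = e m) :
    χ p (((oddMat r e).det : ℤ) : ZMod p) = 1 := by
  have hr := r_pos hpr
  have hψ : (psi hpr G hG).IsPrimitive :=
    AddChar.zmodChar_primitive_of_primitive_root (2 * r) (prim_sq hpr G hG)
  have hmap : (((oddMat r e).det : ℤ) : ZMod p) =
      (oddMat r (fun m => (e m : ZMod p))).det := by
    have h1 : (((oddMat r e).det : ℤ) : ZMod p) = (Int.castRingHom (ZMod p)) (oddMat r e).det := rfl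
    rw [h1, RingHom.map_det]
    congr 1
    ext i j
    simp [oddMat, RingHom.mapMatrix_apply, Matrix.map_apply]
  have hn : ((2 * r : ℕ) : ZMod p) ≠ 0 := cast_ne hpr _ (by omega) (by omega)
  rw [hmap, det_oddMat r hr (psi hpr G hG) hψ hn (fun m => (e m : ZMod p))
    (fun x => by rw [heven])]
  have h1 : ∏ b : Fin (r - 1), (4 * ((G : ZMod p) ^ ((b : ℕ) + 1) -
      ((G : ZMod p) ^ ((b : ℕ) + 1))⁻¹) *
      (∑ m : ZMod (2 * r), (e m : ZMod p) *
        psi hpr G hG (m * (((b : ℕ) + 1 : ℕ) : ZMod (2 * r))))) =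
      ∏ b : Fin (r - 1), ((-1) ^ ((b : ℕ) + 1) * ((2 * r).choose ((b : ℕ) + 1) : ZMod p)) :=
    Finset.prod_congr rfl fun b _ => eigen_mod hpr G hG e he b
  rw [Finset.prod_mul_distrib, Finset.prod_mul_distrib, Finset.prod_mul_distrib] at h1
  have h2 := congrArg (χ p) h1
  rw [map_mul, map_mul, map_mul, chi_P hpr G hG] at h2
  have h3 : χ p (∏ _b : Fin (r - 1), (4 : ZMod p)) = 1 := by
    rw [map_prod]
    refine Finset.prod_eq_one fun b _ => ?_
    have : (4 : ZMod p) = 2 ^ 2 := by norm_num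
    rw [this]
    exact quadraticChar_sq_one' (two_ne hpr)
  have h4 : χ p (∏ b : Fin (r - 1), (-1 : ZMod p) ^ ((b : ℕ) + 1)) = 1 := by
    rw [map_prod]
    refine Finset.prod_eq_one fun b _ => ?_
    rw [map_pow, chi_neg_one hpr G hG, one_pow]
  have h5 : χ p (∏ b : Fin (r - 1), ((2 * r).choose ((b : ℕ) + 1) : ZMod p)) = 1 := by
    rw [map_prod]
    exact chi_choose_prod hpr G hG
  rw [h3, h4, h5] at h2
  simpa using h2

end

end Pool.Agent.Lib.MP_b23923_nt
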